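import Mathlib
import Pool.Agent.H.MP_c8cc4c_co.B.Conn

/-! # MP_c8cc4c_co, part F, file 1: cyclic enumeration of a connected 2-regular graph -/

open scoped Classical
open Finset

noncomputable section

namespace Pool.Agent.H.MP_c8cc4c_co

/-- Longest path: there are `m ≥ 1` and `g : ℕ → α`, injective on `[0, m)`, consecutive ones adjacent, such
that both neighbours of `g (m-1)` are among `g 0, ..., g (m-1)` (a path of maximal length cannot be extended). -/
theorem longest_path {α : Type} [Fintype α] [Nonempty α] (H : SimpleGraph α) :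
    ∃ (m : ℕ) (g : ℕ → α), 1 ≤ m ∧ (∀ s t, s < m → t < m → g s = g t → s = t) ∧
      (∀ t, t + 1 < m → H.Adj (g t) (g (t + 1))) ∧
      ∀ a, H.Adj (g (m - 1)) a → ∃ t < m, g t = a := by
  set P : ℕ → Prop := fun m => 1 ≤ m ∧ ∃ g : ℕ → α, (∀ s t, s < m → t < m → g s = g t → s = t) ∧
      (∀ t, t + 1 < m → H.Adj (g t) (g (t + 1))) with hP
  have hb : ∀ m, P m → m ≤ Fintype.card α := by
    rintro m ⟨-, g, hg, -⟩
    have := Fintype.card_le_of_injective (fun i : Fin m => g i) (by
      intro i j hij
      exact Fin.ext (hg i j i.2 j.2 hij))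
    simpa using this
  have h1 : P 1 := by
    obtain ⟨a⟩ := (inferInstance : Nonempty α)
    refine ⟨le_refl _, fun _ => a, ?_, ?_⟩
    · intro s t hs ht _
      omega
    · intro t ht
      omega
  have hspec := Nat.findGreatest_spec (P := P) (hb 1 h1) h1
  have hmax := fun m (hm : P m) => Nat.le_findGreatest (P := P) (hb m hm) hm
  set m := Nat.findGreatest P (Fintype.card α) with hm
  obtain ⟨hm1, g, hg, hadj⟩ := hspec
  refine ⟨m, g, hm1, hg, hadj, ?_⟩
  intro a ha
  by_contra hno
  push Not at hno
  have : P (m + 1) := by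
    refine ⟨by omega, fun t => if t < m then g t else a, ?_, ?_⟩
    · intro s t hs ht hst
      by_cases h2 : s < m <;> by_cases h3 : t < m
      · simp only [if_pos h2, if_pos h3] at hst
        exact hg s t h2 h3 hst
      · simp only [if_pos h2, if_neg h3] at hst
        exact absurd hst (hno s h2)
      · simp only [if_neg h2, if_pos h3] at hst
        exact absurd hst.symm (hno t h3)
      · omega
    · intro t ht
      have h2 : t < m := by omega
      by_cases h3 : t + 1 < m
      · simp only [if_pos h2, if_pos h3]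
        exact hadj t h3
      · simp only [if_pos h2, if_neg h3]
        have : t = m - 1 := by omega
        rw [this]
        exact ha
  have := hmax _ this
  omega

/-- A connected graph in which every vertex has exactly two neighbours is a cycle. Take a longest path `g`
(`longest_path`). The neighbours of `g (m-1)` are on the path; one of them is `g j` with `j ≠ m - 2`. If `j ≥ 1`,
then `g j` has the three neighbours `g (j-1)`, `g (j+1)`, `g (m-1)`, which are different. So `j = 0`, and
`m ≥ 3`. The set `{g t}` is closed under adjacency (each `g t` has its two neighbours in it), so it is everything.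
Extend `g` periodically by `t ↦ g (t % m)`. -/
theorem cyc_enum {α : Type} [Fintype α] [Nonempty α] (H : SimpleGraph α)
    (hd : ∀ a, ∃ b c, b ≠ c ∧ ∀ d, H.Adj a d ↔ d = b ∨ d = c)
    (hc : ∀ a b, ∃ n, Near H Set.univ n a b) :
    ∃ (m : ℕ) (g : ℕ → α), 3 ≤ m ∧ (∀ t, g (t + m) = g t) ∧
      (∀ s t, s < m → t < m → g s = g t → s = t) ∧ (∀ a, ∃ t < m, g t = a) ∧
      ∀ t, H.Adj (g t) (g (t + 1)) := by
  -- three different neighbours are impossible
  have h3 : ∀ a x y z, H.Adj a x → H.Adj a y → H.Adj a z → x ≠ y → y ≠ z → x ≠ z → False := by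
    intro a x y z hx hy hz h1 h2 h3
    obtain ⟨b, c, -, h⟩ := hd a
    rcases (h x).1 hx with rfl | rfl <;> rcases (h y).1 hy with rfl | rfl <;>
      rcases (h z).1 hz with rfl | rfl
    all_goals first
      | exact h1 rfl
      | exact h2 rfl
      | exact h3 rfl
  obtain ⟨m, g, hm1, hg, hadj, hend⟩ := longest_path H
  -- the two neighbours of the end
  obtain ⟨b, c, hbc, hn⟩ := hd (g (m - 1))
  obtain ⟨t1, ht1, rfl⟩ := hend b ((hn b).2 (Or.inl rfl))
  obtain ⟨t2, ht2, rfl⟩ := hend c ((hn c).2 (Or.inr rfl))
  have ha1 : H.Adj (g (m - 1)) (g t1) := (hn _).2 (Or.inl rfl)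
  have ha2 : H.Adj (g (m - 1)) (g t2) := (hn _).2 (Or.inr rfl)
  have hne1 : t1 ≠ m - 1 := by
    rintro rfl
    exact H.loopless.irrefl _ ha1
  have hne2 : t2 ≠ m - 1 := by
    rintro rfl
    exact H.loopless.irrefl _ ha2
  have hne : t1 ≠ t2 := by
    rintro rfl
    exact hbc rfl
  have hm3 : 3 ≤ m := by omega
  have hzero : ∀ j, j < m → j ≠ m - 1 → j ≠ m - 2 → H.Adj (g (m - 1)) (g j) → j = 0 := by
    intro j hj h1 h2 ha
    by_contra h0
    have e1 : H.Adj (g j) (g (j - 1)) := by
      have := hadj (j - 1) (by omega)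
      rw [Nat.sub_add_cancel (by omega)] at this
      exact this.symm
    have e2 : H.Adj (g j) (g (j + 1)) := hadj j (by omega)
    refine h3 (g j) (g (j - 1)) (g (j + 1)) (g (m - 1)) e1 e2 ha.symm ?_ ?_ ?_
    · intro h
      have := hg _ _ (by omega) (by omega) h
      omega
    · intro h
      have := hg _ _ (by omega) (by omega) h
      omega
    · intro h
      have := hg _ _ (by omega) (by omega) h
      omega
  have hclose : H.Adj (g (m - 1)) (g 0) := by
    by_cases h : t1 = m - 2
    · have := hzero t2 ht2 hne2 (by omega) ha2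
      rw [this] at ha2
      exact ha2
    · have := hzero t1 ht1 hne1 h ha1
      rw [this] at ha1
      exact ha1
  have hnext : ∀ t, t < m → H.Adj (g t) (g (if t + 1 < m then t + 1 else 0)) := by
    intro t ht
    by_cases h : t + 1 < m
    · rw [if_pos h]
      exact hadj t h
    · rw [if_neg h]
      have : t = m - 1 := by omega
      rw [this]
      exact hclose
  have hprev : ∀ t, t < m → H.Adj (g t) (g (if t = 0 then m - 1 else t - 1)) := by
    intro t ht
    by_cases h : t = 0
    · rw [if_pos h, h]
      exact hclose.symm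
    · rw [if_neg h]
      have := hadj (t - 1) (by omega)
      rw [Nat.sub_add_cancel (by omega)] at this
      exact this.symm
  have hsurj : ∀ a, ∃ t < m, g t = a := by
    intro a
    obtain ⟨n, hn⟩ := hc (g 0) a
    refine near_induct (fun v => ∃ t < m, g t = v) ?_ hn ⟨0, by omega, rfl⟩
    rintro u v - - huv ⟨t, ht, rfl⟩
    by_contra hno
    push Not at hno
    have hn1 : (if t + 1 < m then t + 1 else 0) < m := by split_ifs <;> omega
    have hn2 : (if t = 0 then m - 1 else t - 1) < m := by split_ifs <;> omega
    refine h3 (g t) _ _ v (hnext t ht) (hprev t ht) huv ?_ (hno _ hn2) (hno _ hn1)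
    intro h
    have h5 := hg _ _ hn1 hn2 h
    by_cases h6 : t + 1 < m <;> by_cases h7 : t = 0
    · rw [if_pos h6, if_pos h7] at h5
      omega
    · rw [if_pos h6, if_neg h7] at h5
      omega
    · rw [if_neg h6, if_pos h7] at h5
      omega
    · rw [if_neg h6, if_neg h7] at h5
      omega
  refine ⟨m, fun t => g (t % m), hm3, ?_, ?_, ?_, ?_⟩
  · intro t
    simp
  · intro s t hs ht hst
    simp only [Nat.mod_eq_of_lt hs, Nat.mod_eq_of_lt ht] at hst
    exact hg s t hs ht hst
  · intro a
    obtain ⟨t, ht, hta⟩ := hsurj a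
    refine ⟨t, ht, ?_⟩
    simp only [Nat.mod_eq_of_lt ht]
    exact hta
  · intro t
    have hr : t % m < m := Nat.mod_lt _ (by omega)
    have h5 := hnext (t % m) hr
    have h6 : (t + 1) % m = if t % m + 1 < m then t % m + 1 else 0 := by
      rw [← Nat.mod_add_mod]
      split_ifs with h
      · exact Nat.mod_eq_of_lt h
      · have : t % m + 1 = m := by omega
        rw [this, Nat.mod_self]
    rw [← h6] at h5
    exact h5

/-- periodic functions -/
theorem per_mod {α : Type} {m : ℕ} {g : ℕ → α} (h : ∀ t, g (t + m) = g t) (t : ℕ) :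
    g t = g (t % m) := by
  have key : ∀ k r, g (r + m * k) = g r := by
    intro k
    induction k with
    | zero =>
      intro r
      simp
    | succ k ih =>
      intro r
      rw [Nat.mul_succ, ← Nat.add_assoc, h, ih]
  conv_lhs => rw [← Nat.mod_add_div t m]
  exact key _ _

end Pool.Agent.H.MP_c8cc4c_co
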