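import Mathlib
import Pool.Agent.H.MP_c8cc4c_co.B.Path
import Pool.Agent.H.MP_c8cc4c_co.Iface

/-! # MP_c8cc4c_co, part F, file 2: triangles -/

open scoped Classical
open Finset

noncomputable section

namespace Pool.Agent.H.MP_c8cc4c_co

variable {T : PC}

theorem TriA_ends (hT : T.IsSphere) {e : T.E} {x y : T.V} (hxy : x ≠ y) (hx : T.inc e x)
    (hy : T.inc e y) : ∀ v, T.inc e v ↔ v = x ∨ v = y := by
  obtain ⟨a, b, -, h⟩ := hT.inc_two e
  intro v
  rw [h v]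
  rcases (h x).1 hx with rfl | rfl <;> rcases (h y).1 hy with rfl | rfl
  · exact absurd rfl hxy
  · rfl
  · exact or_comm
  · exact absurd rfl hxy

theorem TriA_other (hT : T.IsSphere) {f : T.F} {e : T.E} {v : T.V} (he : T.bd f e)
    (hv : T.inc e v) : ∃ e', e' ≠ e ∧ T.bd f e' ∧ T.inc e' v ∧
      ∀ d, T.bd f d → T.inc d v → d = e ∨ d = e' := by
  obtain ⟨p, q, hpq, h⟩ := hT.face_two f v ⟨e, he, hv⟩
  rcases (h e).1 ⟨he, hv⟩ with rfl | rfl
  · have hq := (h q).2 (Or.inr rfl)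
    exact ⟨q, hpq.symm, hq.1, hq.2, fun d h1 h2 => (h d).1 ⟨h1, h2⟩⟩
  · have hp := (h p).2 (Or.inl rfl)
    exact ⟨p, hpq, hp.1, hp.2, fun d h1 h2 => ((h d).1 ⟨h1, h2⟩).symm⟩

/-- the three vertices and edges of a triangle -/
theorem tri_face (hT : T.IsSphere) (h3 : T.Tri) (f : T.F) :
    ∃ a b c : T.V, ∃ ab bc ca : T.E, a ≠ b ∧ b ≠ c ∧ c ≠ a ∧ ab ≠ bc ∧ bc ≠ ca ∧ ca ≠ ab ∧
      (∀ e, T.bd f e ↔ e = ab ∨ e = bc ∨ e = ca) ∧ (∀ v, T.At f v ↔ v = a ∨ v = b ∨ v = c) ∧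
      (∀ v, T.inc ab v ↔ v = a ∨ v = b) ∧ (∀ v, T.inc bc v ↔ v = b ∨ v = c) ∧
      (∀ v, T.inc ca v ↔ v = c ∨ v = a) := by
  have hlen : (univ.filter fun e => T.bd f e).card = 3 := h3.1 f
  obtain ⟨e1, e2, e3, h12, h13, h23, hset⟩ := Finset.card_eq_three.1 hlen
  have hbd : ∀ e, T.bd f e ↔ e = e1 ∨ e = e2 ∨ e = e3 := by
    intro e
    have : e ∈ (univ.filter fun e => T.bd f e) ↔ e ∈ ({e1, e2, e3} : Finset T.E) := by rw [hset]
    simpa using this
  have hr : ∀ p, T.bd f p → p ≠ e1 → ∃ r, T.bd f r ∧ r ≠ e1 ∧ r ≠ p ∧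
      ∀ d, T.bd f d ↔ d = e1 ∨ d = p ∨ d = r := by
    intro p hp hp1
    rcases (hbd p).1 hp with rfl | rfl | rfl
    · exact absurd rfl hp1
    · exact ⟨e3, (hbd _).2 (Or.inr (Or.inr rfl)), h13.symm, h23.symm, hbd⟩
    · exact ⟨e2, (hbd _).2 (Or.inr (Or.inl rfl)), h12.symm, h23, fun d => (hbd d).trans
        (or_congr Iff.rfl or_comm)⟩
  have he1 : T.bd f e1 := (hbd _).2 (Or.inl rfl)
  obtain ⟨a, b, hab, hinc1⟩ := hT.inc_two e1
  have h1a : T.inc e1 a := (hinc1 a).2 (Or.inl rfl)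
  have h1b : T.inc e1 b := (hinc1 b).2 (Or.inr rfl)
  obtain ⟨p, hp1, hpf, hpa, hp⟩ := TriA_other hT he1 h1a
  obtain ⟨q, hqf, hq1, hqp, hall⟩ := hr p hpf hp1
  obtain ⟨c, hca, hpc, -⟩ := other_end hT hpa
  have hincp := TriA_ends hT hca hpc hpa
  have hbc : b ≠ c := by
    rintro rfl
    obtain ⟨x, -, -, hx⟩ : ∃ x y, x ≠ y ∧ T.inc q x := by
      obtain ⟨x, y, hxy, h⟩ := hT.inc_two q
      exact ⟨x, y, hxy, (h x).2 (Or.inl rfl)⟩
    have hxab : x = a ∨ x = b := by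
      obtain ⟨e', he'q, he'f, he'x, -⟩ := TriA_other hT hqf hx
      rcases (hall e').1 he'f with rfl | rfl | rfl
      · exact (hinc1 x).1 he'x
      · exact ((hincp x).1 he'x).symm
      · exact absurd rfl he'q
    rcases hxab with rfl | rfl
    · rcases hp q hqf hx with h | h
      · exact hq1 h
      · exact hqp h
    · obtain ⟨e', he'1, he'f, he'x, h'⟩ := TriA_other hT he1 h1b
      have h5 : p = e' := (h' p hpf hpc).resolve_left hp1
      rcases h' q hqf hx with h | h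
      · exact hq1 h
      · exact hqp (h.trans h5.symm)
  have hqc : T.inc q c := by
    obtain ⟨e', he'p, he'f, he'c, -⟩ := TriA_other hT hpf hpc
    rcases (hall e').1 he'f with rfl | rfl | rfl
    · rcases (hinc1 c).1 he'c with h | h
      · exact absurd h hca
      · exact absurd h.symm hbc
    · exact absurd rfl he'p
    · exact he'c
  have hqb : T.inc q b := by
    obtain ⟨e', he'1, he'f, he'b, -⟩ := TriA_other hT he1 h1b
    rcases (hall e').1 he'f with rfl | rfl | rfl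
    · exact absurd rfl he'1
    · rcases (hincp b).1 he'b with h | h
      · exact absurd h hbc
      · exact absurd h.symm hab
    · exact he'b
  have hincq := TriA_ends hT hbc hqb hqc
  refine ⟨a, b, c, e1, q, p, hab, hbc, hca, hq1.symm, hqp, hp1, ?_, ?_, hinc1, hincq, hincp⟩
  · intro e
    exact (hall e).trans (or_congr Iff.rfl or_comm)
  · intro v
    constructor
    · rintro ⟨e, he, hv⟩
      rcases (hall e).1 he with rfl | rfl | rfl
      · rcases (hinc1 v).1 hv with h | h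
        · exact Or.inl h
        · exact Or.inr (Or.inl h)
      · rcases (hincp v).1 hv with h | h
        · exact Or.inr (Or.inr h)
        · exact Or.inl h
      · rcases (hincq v).1 hv with h | h
        · exact Or.inr (Or.inl h)
        · exact Or.inr (Or.inr h)
    · rintro (rfl | rfl | rfl)
      · exact ⟨e1, he1, h1a⟩
      · exact ⟨e1, he1, h1b⟩
      · exact ⟨p, hpf, hpc⟩

/-- two vertices of a triangle are adjacent -/
theorem tri_adj (hT : T.IsSphere) (h3 : T.Tri) {f : T.F} {x y : T.V} (hx : T.At f x)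
    (hy : T.At f y) (hxy : x ≠ y) : T.graph.Adj x y ∧ ∃ e, T.bd f e ∧ T.inc e x ∧ T.inc e y := by
  obtain ⟨a, b, c, ab, bc, ca, h1, h2, h3', h4, h5, h6, hbd, hat, hab, hbc, hca⟩ :=
    tri_face hT h3 f
  have key : ∃ e, T.bd f e ∧ T.inc e x ∧ T.inc e y := by
    have fab : T.bd f ab := (hbd _).2 (Or.inl rfl)
    have fbc : T.bd f bc := (hbd _).2 (Or.inr (Or.inl rfl))
    have fca : T.bd f ca := (hbd _).2 (Or.inr (Or.inr rfl))
    rcases (hat x).1 hx with rfl | rfl | rfl <;> rcases (hat y).1 hy with rfl | rfl | rfl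
    · exact absurd rfl hxy
    · exact ⟨ab, fab, (hab _).2 (Or.inl rfl), (hab _).2 (Or.inr rfl)⟩
    · exact ⟨ca, fca, (hca _).2 (Or.inr rfl), (hca _).2 (Or.inl rfl)⟩
    · exact ⟨ab, fab, (hab _).2 (Or.inr rfl), (hab _).2 (Or.inl rfl)⟩
    · exact absurd rfl hxy
    · exact ⟨bc, fbc, (hbc _).2 (Or.inl rfl), (hbc _).2 (Or.inr rfl)⟩
    · exact ⟨ca, fca, (hca _).2 (Or.inl rfl), (hca _).2 (Or.inr rfl)⟩
    · exact ⟨bc, fbc, (hbc _).2 (Or.inr rfl), (hbc _).2 (Or.inl rfl)⟩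
    · exact absurd rfl hxy
  obtain ⟨e, he, hex, hey⟩ := key
  exact ⟨⟨hxy, e, hex, hey⟩, e, he, hex, hey⟩

theorem TriA_mem_cut {e : T.E} {x y : T.V} (h : ∀ v, T.inc e v ↔ v = x ∨ v = y) (S : Set T.V) :
    e ∈ T.cut S ↔ (x ∈ S ∧ y ∉ S) ∨ (x ∉ S ∧ y ∈ S) := by
  unfold PC.cut
  rw [Finset.mem_filter]
  constructor
  · rintro ⟨-, ⟨u, hu, huS⟩, v, hv, hvS⟩
    rcases (h u).1 hu with rfl | rfl <;> rcases (h v).1 hv with rfl | rfl
    · exact absurd huS hvS
    · exact Or.inl ⟨huS, hvS⟩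
    · exact Or.inr ⟨hvS, huS⟩
    · exact absurd huS hvS
  · rintro (⟨h1, h2⟩ | ⟨h1, h2⟩)
    · exact ⟨Finset.mem_univ _, ⟨x, (h x).2 (Or.inl rfl), h1⟩, y, (h y).2 (Or.inr rfl), h2⟩
    · exact ⟨Finset.mem_univ _, ⟨y, (h y).2 (Or.inr rfl), h2⟩, x, (h x).2 (Or.inl rfl), h1⟩

theorem TriA_cut_aux {f : T.F} {x y z : T.V} {xy yz zx : T.E} (h1 : xy ≠ yz)
    (h3 : zx ≠ xy) (hbd : ∀ e, T.bd f e ↔ e = xy ∨ e = yz ∨ e = zx)
    (hxy : ∀ v, T.inc xy v ↔ v = x ∨ v = y) (hyz : ∀ v, T.inc yz v ↔ v = y ∨ v = z)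
    (hzx : ∀ v, T.inc zx v ↔ v = z ∨ v = x) {S : Set T.V} (hc : xy ∈ T.cut S) :
    ∃ e', e' ≠ xy ∧ T.bd f e' ∧ e' ∈ T.cut S ∧
      ∀ d, T.bd f d → d ∈ T.cut S → d = xy ∨ d = e' := by
  rw [TriA_mem_cut hxy] at hc
  have h4 := TriA_mem_cut hyz S
  have h5 := TriA_mem_cut hzx S
  have fyz : T.bd f yz := (hbd _).2 (Or.inr (Or.inl rfl))
  have fzx : T.bd f zx := (hbd _).2 (Or.inr (Or.inr rfl))
  by_cases h : yz ∈ T.cut S
  · have h6 : zx ∉ T.cut S := by
      rw [h5]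
      rw [h4] at h
      tauto
    refine ⟨yz, h1.symm, fyz, h, ?_⟩
    intro d hd hdc
    rcases (hbd d).1 hd with rfl | rfl | rfl
    · exact Or.inl rfl
    · exact Or.inr rfl
    · exact absurd hdc h6
  · have h6 : zx ∈ T.cut S := by
      rw [h5]
      rw [h4] at h
      tauto
    refine ⟨zx, h3, fzx, h6, ?_⟩
    intro d hd hdc
    rcases (hbd d).1 hd with rfl | rfl | rfl
    · exact Or.inl rfl
    · exact absurd hdc h
    · exact Or.inr rfl

/-- A triangle which contains an edge `e` of `cut S` contains exactly one other edge of `cut S`. -/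
theorem tri_cut (hT : T.IsSphere) (h3 : T.Tri) {S : Set T.V} {f : T.F} {e : T.E}
    (he : T.bd f e) (hc : e ∈ T.cut S) :
    ∃ e', e' ≠ e ∧ T.bd f e' ∧ e' ∈ T.cut S ∧
      ∀ d, T.bd f d → d ∈ T.cut S → d = e ∨ d = e' := by
  obtain ⟨a, b, c, ab, bc, ca, h1, h2, h3', h4, h5, h6, hbd, hat, hab, hbc, hca⟩ :=
    tri_face hT h3 f
  rcases (hbd e).1 he with rfl | rfl | rfl
  · exact TriA_cut_aux h4 h6 hbd hab hbc hca hc
  · exact TriA_cut_aux (x := b) (y := c) (z := a) (yz := ca) (zx := ab) h5 h4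
      (fun d => (hbd d).trans (by tauto)) hbc hca hab hc
  · exact TriA_cut_aux (x := c) (y := a) (z := b) (yz := ab) (zx := bc) h6 h5
      (fun d => (hbd d).trans (by tauto)) hca hab hbc hc

theorem TriA_third (hT : T.IsSphere) (h3 : T.Tri) {f : T.F} {e e' : T.E} (hne : e ≠ e')
    (he : T.bd f e) (he' : T.bd f e') : ∃ v x y d, v ≠ x ∧ v ≠ y ∧ x ≠ y ∧
      (∀ u, T.inc e u ↔ u = v ∨ u = x) ∧ (∀ u, T.inc e' u ↔ u = v ∨ u = y) ∧
      (∀ u, T.inc d u ↔ u = x ∨ u = y) ∧ ∀ c, T.bd f c ↔ c = e ∨ c = e' ∨ c = d := by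
  obtain ⟨a, b, c, ab, bc, ca, h1, h2, h3', h4, h5, h6, hbd, hat, hab, hbc, hca⟩ :=
    tri_face hT h3 f
  have hba := fun u => (hab u).trans or_comm
  have hcb := fun u => (hbc u).trans or_comm
  have hac := fun u => (hca u).trans or_comm
  rcases (hbd e).1 he with rfl | rfl | rfl <;> rcases (hbd e').1 he' with rfl | rfl | rfl
  · exact absurd rfl hne
  · exact ⟨b, a, c, ca, h1.symm, h2, h3'.symm, hba, hbc, hac, hbd⟩
  · exact ⟨a, b, c, bc, h1, h3'.symm, h2, hab, hac, hbc, fun d => (hbd d).trans (by tauto)⟩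
  · exact ⟨b, c, a, ca, h2, h1.symm, h3', hbc, hba, hca, fun d => (hbd d).trans (by tauto)⟩
  · exact absurd rfl hne
  · exact ⟨c, b, a, ab, h2.symm, h3', h1.symm, hcb, hca, hba, fun d => (hbd d).trans (by tauto)⟩
  · exact ⟨a, c, b, bc, h3'.symm, h1, h2.symm, hac, hab, hcb, fun d => (hbd d).trans (by tauto)⟩
  · exact ⟨c, a, b, ab, h3', h2.symm, h1, hca, hcb, hab, fun d => (hbd d).trans (by tauto)⟩
  · exact absurd rfl hne

/-- Two different triangles have at most one common edge: with two common edges `e`, `e'` (which have a common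
vertex) the third edges join the same two vertices, so they are equal (`Simple`), and the triangles are equal
(`Tri`). -/
theorem tri_two (hT : T.IsSphere) (hS : T.Simple) (h3 : T.Tri) {f g : T.F} {e e' : T.E}
    (hfg : f ≠ g) (h1 : T.bd f e) (h2 : T.bd g e) (h3' : T.bd f e') (h4 : T.bd g e') : e = e' := by
  by_contra hne
  obtain ⟨v, x, y, d, hvx, hvy, hxy, he, he', hd, hf⟩ := TriA_third hT h3 hne h1 h3'
  obtain ⟨v', x', y', d', hvx', hvy', hxy', ge, ge', gd, hg⟩ := TriA_third hT h3 hne h2 h4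
  have hv : v' = v := by
    by_contra hno
    have a1 : v' = x := ((he v').1 ((ge v').2 (Or.inl rfl))).resolve_left hno
    have a2 : v' = y := ((he' v').1 ((ge' v').2 (Or.inl rfl))).resolve_left hno
    exact hxy (a1.symm.trans a2)
  subst hv
  have hx : x' = x := ((he x').1 ((ge x').2 (Or.inr rfl))).resolve_left (fun h => hvx' h.symm)
  have hy : y' = y := ((he' y').1 ((ge' y').2 (Or.inr rfl))).resolve_left (fun h => hvy' h.symm)
  subst hx hy
  have hdd : d = d' := hS d d' _ _ hxy ((hd _).2 (Or.inl rfl)) ((hd _).2 (Or.inr rfl))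
    ((gd _).2 (Or.inl rfl)) ((gd _).2 (Or.inr rfl))
  subst hdd
  exact hfg (h3.2 f g (fun c hc => (hg c).2 ((hf c).1 hc)))

end Pool.Agent.H.MP_c8cc4c_co
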