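import Mathlib
import Pool.Agent.H.MP_c8cc4c_co.F.TriA
import Pool.Agent.H.MP_c8cc4c_co.F.Enum
import Pool.Agent.H.MP_c8cc4c_co.E.Cocycle

/-! # MP_c8cc4c_co, part F, file 3: the contour -/

open scoped Classical
open Finset

noncomputable section

namespace Pool.Agent.H.MP_c8cc4c_co

variable {T : PC}

/-- the graph on the edges of `cut S`: adjacent if they are in a common triangle -/
def cutG (T : PC) (S : Set T.V) : SimpleGraph {e : T.E // e ∈ T.cut S} where
  Adj e e' := e ≠ e' ∧ ∃ f, T.bd f e.1 ∧ T.bd f e'.1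
  symm := ⟨fun _ _ h => ⟨h.1.symm, by obtain ⟨f, h1, h2⟩ := h.2; exact ⟨f, h2, h1⟩⟩⟩
  loopless := ⟨fun _ h => h.1 rfl⟩

/-- Every vertex of `cutG` has exactly two neighbours: the two faces `f`, `g` of `e` contain exactly one other edge
of `cut S` each (`tri_cut`), and these are different (`tri_two`). -/
theorem cutG_two (hT : T.IsSphere) (hS : T.Simple) (h3 : T.Tri) (S : Set T.V)
    (a : {e : T.E // e ∈ T.cut S}) : ∃ b c, b ≠ c ∧ ∀ d, (cutG T S).Adj a d ↔ d = b ∨ d = c := by
  obtain ⟨e, he⟩ := a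
  obtain ⟨f, g, hfg, hfaces⟩ := hT.bd_two e
  have hf : T.bd f e := (hfaces f).2 (Or.inl rfl)
  have hg : T.bd g e := (hfaces g).2 (Or.inr rfl)
  obtain ⟨e1, h1ne, h1f, h1c, h1all⟩ := tri_cut hT h3 hf he
  obtain ⟨e2, h2ne, h2g, h2c, h2all⟩ := tri_cut hT h3 hg he
  refine ⟨⟨e1, h1c⟩, ⟨e2, h2c⟩, ?_, ?_⟩
  · intro h12
    have h12' : e1 = e2 := congrArg Subtype.val h12
    subst h12'
    exact h1ne (tri_two hT hS h3 hfg hf hg h1f h2g).symm
  · rintro ⟨d, hd⟩
    constructor
    · rintro ⟨hne, h, hhe, hhd⟩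
      have hne' : d ≠ e := fun h => hne (Subtype.ext h.symm)
      have hhe' : T.bd h e := hhe
      have hhd' : T.bd h d := hhd
      rcases (hfaces h).1 hhe' with rfl | rfl
      · rcases h1all d hhd' hd with h' | h'
        · exact absurd h' hne'
        · exact Or.inl (Subtype.ext h')
      · rcases h2all d hhd' hd with h' | h'
        · exact absurd h' hne'
        · exact Or.inr (Subtype.ext h')
    · rintro (h | h)
      · have h' : d = e1 := congrArg Subtype.val h
        subst h'
        exact ⟨fun h => h1ne (congrArg Subtype.val h).symm, f, hf, h1f⟩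
      · have h' : d = e2 := congrArg Subtype.val h
        subst h'
        exact ⟨fun h => h2ne (congrArg Subtype.val h).symm, g, hg, h2g⟩

/-- `cutG` is connected: let `D1` be the component of an edge. The indicator `w` of `D1` is even on every triangle
(`tri_cut`: both cut edges of a triangle are in `D1` or both are not), so by `cocycle_two` it is nonzero on all of
`cut S`. -/
theorem cutG_conn (hT : T.IsSphere) (h3 : T.Tri) (S : Set T.V)
    (hS : ConnOn T.graph S) (hS' : ConnOn T.graph Sᶜ) (a b : {e : T.E // e ∈ T.cut S}) :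
    ∃ n, Near (cutG T S) Set.univ n a b := by
  set D : T.E → Prop := fun e => ∃ h : e ∈ T.cut S, ∃ n, Near (cutG T S) Set.univ n a ⟨e, h⟩ with hD
  set w : T.E → ZMod 2 := fun e => if D e then 1 else 0 with hw
  have hstep : ∀ f e e', T.bd f e → T.bd f e' → e ≠ e' → e' ∈ T.cut S → D e → D e' := by
    rintro f e e' hfe hfe' hne he' ⟨he, n, hn⟩
    have h1 : Near (cutG T S) Set.univ 1 ⟨e, he⟩ ⟨e', he'⟩ :=
      near_adj (Set.mem_univ _) (Set.mem_univ _) ⟨fun h => hne (congrArg Subtype.val h), f, hfe, hfe'⟩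
    exact ⟨he', n + 1, near_trans hn h1⟩
  have hface : ∀ f, ∑ e ∈ univ.filter (fun e => T.bd f e), w e = 0 := by
    intro f
    by_cases hex : ∃ e, T.bd f e ∧ D e
    · obtain ⟨e, hfe, hDe⟩ := hex
      obtain ⟨he, n, hn⟩ := hDe
      obtain ⟨e', hne, hfe', he', hall⟩ := tri_cut hT h3 hfe he
      have hDe : D e := ⟨he, n, hn⟩
      have hDe' : D e' := hstep f e e' hfe hfe' hne.symm he' hDe
      have hsub : ({e, e'} : Finset T.E) ⊆ univ.filter (fun e => T.bd f e) := by
        intro d hd
        simp only [Finset.mem_insert, Finset.mem_singleton] at hd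
        rcases hd with rfl | rfl
        · exact Finset.mem_filter.2 ⟨Finset.mem_univ _, hfe⟩
        · exact Finset.mem_filter.2 ⟨Finset.mem_univ _, hfe'⟩
      rw [← Finset.sum_subset hsub, Finset.sum_pair hne.symm]
      · simp only [hw, if_pos hDe, if_pos hDe']
        exact CharTwo.add_self_eq_zero 1
      · intro d hd hd'
        have hnD : ¬ D d := by
          rintro ⟨hdc, -⟩
          apply hd'
          rcases hall d (Finset.mem_filter.1 hd).2 hdc with h | h
          · rw [h]; simp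
          · rw [h]; simp
        simp only [hw, if_neg hnD]
    · refine Finset.sum_eq_zero fun e he => ?_
      have hnD : ¬ D e := fun h => hex ⟨e, (Finset.mem_filter.1 he).2, h⟩
      simp only [hw, if_neg hnD]
  have hw0 : ∀ e, e ∉ T.cut S → w e = 0 := by
    intro e he
    have hnD : ¬ D e := fun h => he h.1
    simp only [hw, if_neg hnD]
  have hDa : D a.1 := ⟨a.2, 0, near_refl (Set.mem_univ _)⟩
  rcases cocycle_two T hT w hface S hS hS' hw0 with h | h
  · exfalso
    have h1 : w a.1 = 0 := by rw [h]; rfl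
    simp only [hw, if_pos hDa] at h1
    exact one_ne_zero h1
  · have h1 := h b.1 b.2
    have hDb : D b.1 := by
      by_contra hnD
      exact h1 (by simp only [hw, if_neg hnD])
    obtain ⟨_, n, hn⟩ := hDb
    exact ⟨n, hn⟩

/-- contour: `cyc_enum` for `cutG` (nonempty: `S` and its complement are nonempty, the graph is connected) -/
theorem contour : ContourStmt := by
  intro T hT hS h3 S hc hc'
  obtain ⟨x, hx⟩ := hc.1
  obtain ⟨y, hy⟩ := hc'.1
  obtain ⟨n, hn⟩ := hT.conn x y
  obtain ⟨u, v, k, l, -, hu, ⟨huv, e0, he1, he2⟩, hv, -⟩ := near_exit hn hx hy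
  have huS : u ∈ S := (near_right hu).2
  have he0 : e0 ∈ T.cut S := by
    unfold PC.cut
    exact Finset.mem_filter.2 ⟨Finset.mem_univ _, ⟨u, he1, huS⟩, v, he2, hv⟩
  have : Nonempty {e : T.E // e ∈ T.cut S} := ⟨⟨e0, he0⟩⟩
  obtain ⟨m, g, hm, hper, hinj, hsurj, hadj⟩ :=
    cyc_enum (cutG T S) (cutG_two hT hS h3 S) (cutG_conn hT h3 S hc hc')
  refine ⟨m, fun t => (g t).1, hm, fun t => congrArg Subtype.val (hper t), ?_, ?_, ?_⟩
  · intro s t hs ht hst
    exact hinj s t hs ht (Subtype.ext hst)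
  · intro e
    constructor
    · intro he
      obtain ⟨t, -, ht⟩ := hsurj ⟨e, he⟩
      exact ⟨t, congrArg Subtype.val ht⟩
    · rintro ⟨t, rfl⟩
      exact (g t).2
  · intro t
    obtain ⟨-, f, h1, h2⟩ := hadj t
    exact ⟨f, h1, h2⟩

end Pool.Agent.H.MP_c8cc4c_co
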