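import Mathlib
import Pool.Agent.H.MP_c8cc4c_co.F.TriA

/-! # MP_c8cc4c_co, part F, file 4: alternation -/

open scoped Classical
open Finset

noncomputable section

namespace Pool.Agent.H.MP_c8cc4c_co

variable {T : PC}

theorem TriC_mod {α : Type} {m : ℕ} {g : ℕ → α} (hp : ∀ t, g (t + m) = g t) (t : ℕ) :
    g t = g (t % m) := by
  have h : ∀ k r, g (r + m * k) = g r := by
    intro k
    induction k with
    | zero => intro r; simp
    | succ k ih =>
      intro r
      have : r + m * (k + 1) = (r + m * k) + m := by ring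
      rw [this, hp, ih]
  have := h (t / m) (t % m)
  rwa [Nat.mod_add_div] at this

theorem TriC_inj {α : Type} {m : ℕ} {g : ℕ → α} (hm : 3 ≤ m) (hp : ∀ t, g (t + m) = g t)
    (hi : ∀ s t, s < m → t < m → g s = g t → s = t) {s t : ℕ} (h : g s = g t) :
    s % m = t % m := by
  apply hi _ _ (Nat.mod_lt _ (by omega)) (Nat.mod_lt _ (by omega))
  rw [← TriC_mod hp s, ← TriC_mod hp t, h]

theorem TriC_ne {α : Type} {m : ℕ} {g : ℕ → α} (hm : 3 ≤ m) (hp : ∀ t, g (t + m) = g t)
    (hi : ∀ s t, s < m → t < m → g s = g t → s = t) (t d : ℕ) (hd : 0 < d) (hd2 : d ≤ 2) :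
    g t ≠ g (t + d) := by
  intro h
  have h1 : t % m = (t + d) % m := TriC_inj hm hp hi h
  have h2 : m ∣ (t + d) - t := (Nat.modEq_iff_dvd' (by omega)).1 h1
  have h3 : (t + d) - t = d := by omega
  rw [h3] at h2
  have := Nat.le_of_dvd hd h2
  omega

/-- Consecutive triangles of the contour: if `f` contains `g t`, `g (t+1)` and `f'` contains `g (t+1)`, `g (t+2)`, then
`f ≠ f'` (a triangle has at most two edges of `cut S`, and `g t ≠ g (t+2)` because `m ≥ 3`). -/
theorem contour_ne (hT : T.IsSphere) (h3 : T.Tri) {S : Set T.V}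
    {m : ℕ} {g : ℕ → T.E} (hm : 3 ≤ m) (hp : ∀ t, g (t + m) = g t)
    (hi : ∀ s t, s < m → t < m → g s = g t → s = t) (hg : ∀ e, e ∈ T.cut S ↔ ∃ t, g t = e)
    {t : ℕ} {f f' : T.F} (h1 : T.bd f (g t)) (h2 : T.bd f (g (t + 1))) (h1' : T.bd f' (g (t + 1)))
    (h2' : T.bd f' (g (t + 2))) : f ≠ f' := by
  intro hff
  subst hff
  have hc : ∀ s, g s ∈ T.cut S := fun s => (hg _).2 ⟨s, rfl⟩
  obtain ⟨e', _, _, _, hall⟩ := tri_cut hT h3 h1 (hc t)
  have a1 := hall _ h2 (hc _)
  have a2 := hall _ h2' (hc _)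
  have n1 := TriC_ne hm hp hi t 1 (by norm_num) (by norm_num)
  have n2 := TriC_ne hm hp hi t 2 (by norm_num) (by norm_num)
  have n3 := TriC_ne hm hp hi (t + 1) 1 (by norm_num) (by norm_num)
  rcases a1 with a1 | a1
  · exact n1 a1.symm
  · rcases a2 with a2 | a2
    · exact n2 a2.symm
    · exact n3 (by rw [a1]; exact a2.symm)

/-- Let `c` be a chain such that among the edges of the contour exactly `g i` and `g j` (`i < j < m`) are in `dF c`. Then `c` has
different values on the triangle after `g k` and on the triangle after `g l` when `i < k < j < l < m` or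
more generally `i ≤ k < j ≤ l < m`: going along the contour (`contour_ne`, `dF_eq`) the value changes exactly at
`g i` and `g j`. -/
theorem contour_change (hT : T.IsSphere) (h3 : T.Tri) {S : Set T.V}
    {m : ℕ} {g : ℕ → T.E} (hm : 3 ≤ m) (hp : ∀ t, g (t + m) = g t)
    (hi : ∀ s t, s < m → t < m → g s = g t → s = t) (hg : ∀ e, e ∈ T.cut S ↔ ∃ t, g t = e)
    (hf : ∀ t, ∃ f, T.bd f (g t) ∧ T.bd f (g (t + 1)))
    (c : T.F → ZMod 2) {i j k l : ℕ} (h1 : i ≤ k) (h2 : k < j) (h3' : j ≤ l) (h4 : l < m)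
    (hc : ∀ t < m, T.dF c (g t) ≠ 0 ↔ t = i ∨ t = j) {f f' : T.F}
    (hk : T.bd f (g k) ∧ T.bd f (g (k + 1))) (hl : T.bd f' (g l) ∧ T.bd f' (g (l + 1))) :
    c f ≠ c f' := by
  -- one step
  have step : ∀ (n : ℕ) (a b : T.F), n + 1 < m → (T.bd a (g n) ∧ T.bd a (g (n + 1))) →
      (T.bd b (g (n + 1)) ∧ T.bd b (g (n + 1 + 1))) → i ≤ n →
      c b = c a + (if n + 1 = j then 1 else 0) := by
    intro n a b hn ha hb hin
    have hab : a ≠ b := contour_ne hT h3 hm hp hi hg ha.1 ha.2 hb.1 hb.2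
    have hd := dF_eq hT hab ha.2 hb.1 c
    have hz := hc (n + 1) hn
    by_cases hj : n + 1 = j
    · rw [if_pos hj]
      have : T.dF c (g (n + 1)) ≠ 0 := hz.2 (Or.inr hj)
      rw [zmod2_ne_zero, hd] at this
      rcases zmod2_cases (c a) with h | h <;> rcases zmod2_cases (c b) with h' | h' <;>
        rw [h, h'] at this ⊢ <;> first | rfl | (exfalso; revert this; decide)
    · rw [if_neg hj]
      have h0 : T.dF c (g (n + 1)) = 0 := by
        by_contra hne
        rcases hz.1 hne with h | h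
        · omega
        · exact hj h
      rw [hd] at h0
      rcases zmod2_cases (c a) with h | h <;> rcases zmod2_cases (c b) with h' | h' <;>
        rw [h, h'] at h0 ⊢ <;> first | rfl | (exfalso; revert h0; decide)
  have main : ∀ d, k + 1 + d ≤ l → ∀ b : T.F,
      (T.bd b (g (k + 1 + d)) ∧ T.bd b (g (k + 1 + d + 1))) →
      c b = c f + (if j ≤ k + 1 + d then 1 else 0) := by
    intro d
    induction d with
    | zero =>
      intro hd b hb
      have := step k f b (by omega) hk hb h1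
      rw [this]
      by_cases hj : k + 1 = j
      · rw [if_pos hj, if_pos (by omega)]
      · rw [if_neg hj, if_neg (by omega)]
    | succ d ih =>
      intro hd b hb
      obtain ⟨a, ha⟩ := hf (k + 1 + d)
      have e1 := ih (by omega) a ha
      have e2 := step (k + 1 + d) a b (by omega) ha hb (by omega)
      rw [e2, e1]
      by_cases hj : k + 1 + d + 1 = j
      · rw [if_neg (show ¬ j ≤ k + 1 + d by omega), if_pos hj,
          if_pos (show j ≤ k + 1 + (d + 1) by omega)]
        simp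
      · rw [if_neg hj, add_zero]
        by_cases hj2 : j ≤ k + 1 + d
        · rw [if_pos hj2, if_pos (show j ≤ k + 1 + (d + 1) by omega)]
        · rw [if_neg hj2, if_neg (show ¬ j ≤ k + 1 + (d + 1) by omega)]
  have hl' := main (l - (k + 1)) (by omega) f' (by
    have : k + 1 + (l - (k + 1)) = l := by omega
    rw [this]; exact hl)
  rw [if_pos (by omega)] at hl'
  rw [hl']
  rcases zmod2_cases (c f) with h | h <;> rw [h] <;> decide

/-- Alternation for `A = S`. Let `z` = chain of a walk in `P` from the end of `g i` in `S` to the end of `g j` in `S`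
plus `g i` plus `g j` plus chain of a walk in the complement of `S` joining the other ends (`path_chain`). It is even, so
`z = dF c`. Among the edges of the contour exactly `g i`, `g j` are in `z` (the walks have no edges in
`cut S`). If `P` and `P'` have no common vertex, the vertices of `P'` are not on `z`, so `c` has the same value on all
faces at vertices of `P'` (`near_const`), contrary to `contour_change`. -/
theorem alt_S (hT : T.IsSphere) (h3 : T.Tri) {S : Set T.V}
    (hS : ConnOn T.graph S) (hS' : ConnOn T.graph Sᶜ)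
    {m : ℕ} {g : ℕ → T.E} (hm : 3 ≤ m) (hp : ∀ t, g (t + m) = g t)
    (hi : ∀ s t, s < m → t < m → g s = g t → s = t) (hg : ∀ e, e ∈ T.cut S ↔ ∃ t, g t = e)
    (hf : ∀ t, ∃ f, T.bd f (g t) ∧ T.bd f (g (t + 1)))
    {i k j l : ℕ} (h1 : i < k) (h2 : k < j) (h3' : j < l) (h4 : l < m)
    {P P' : Set T.V} (hPS : P ⊆ S) (hPS' : P' ⊆ S) (hP : ConnOn T.graph P)
    (hP' : ConnOn T.graph P')
    (hPi : ∃ x ∈ P, T.inc (g i) x) (hPj : ∃ x ∈ P, T.inc (g j) x)
    (hPk : ∃ x ∈ P', T.inc (g k) x) (hPl : ∃ x ∈ P', T.inc (g l) x) : ∃ x ∈ P, x ∈ P' := by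
  by_contra hno
  have hcut : ∀ s, g s ∈ T.cut S := fun s => (hg _).2 ⟨s, rfl⟩
  obtain ⟨xi, hxiP, hxi⟩ := hPi
  obtain ⟨xj, hxjP, hxj⟩ := hPj
  obtain ⟨xk, hxkP, hxk⟩ := hPk
  obtain ⟨xl, hxlP, hxl⟩ := hPl
  obtain ⟨yi, hyi, hyiS⟩ := (mem_filter.1 (hcut i)).2.2
  obtain ⟨yj, hyj, hyjS⟩ := (mem_filter.1 (hcut j)).2.2
  have hxyi : xi ≠ yi := fun h => hyiS (h ▸ hPS hxiP)
  have hxyj : xj ≠ yj := fun h => hyjS (h ▸ hPS hxjP)
  obtain ⟨n1, hn1⟩ := hP.2 xi hxiP xj hxjP
  obtain ⟨n2, hn2⟩ := hS'.2 yi hyiS yj hyjS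
  obtain ⟨z1, hz1, _, hz1e⟩ := path_chain hT hn1
  obtain ⟨z2, hz2, _, hz2e⟩ := path_chain hT hn2
  have hgi := dE_single hT hxyi hxi hyi
  have hgj := dE_single hT hxyj hxj hyj
  set si : T.E → ZMod 2 := Pi.single (g i) 1 with hsi
  set sj : T.E → ZMod 2 := Pi.single (g j) 1 with hsj
  have two : ∀ u : T.V → ZMod 2, u + u = 0 := by
    intro u; funext v
    simp only [Pi.add_apply, Pi.zero_apply]
    rcases zmod2_cases (u v) with h | h <;> rw [h] <;> decide
  have hev : T.Ev (z1 + z2 + si + sj) := by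
    intro v
    have : T.dE (z1 + z2 + si + sj) = 0 := by
      rw [dE_add, dE_add, dE_add, hz1, hz2, hgi, hgj]
      have e : (Pi.single xi 1 + Pi.single xj 1 + (Pi.single yi 1 + Pi.single yj 1) +
          (Pi.single xi 1 + Pi.single yi 1) + (Pi.single xj 1 + Pi.single yj 1) :
          T.V → ZMod 2) = (Pi.single xi 1 + Pi.single xi 1) + (Pi.single xj 1 + Pi.single xj 1) +
          (Pi.single yi 1 + Pi.single yi 1) + (Pi.single yj 1 + Pi.single yj 1) := by
        abel
      rw [e, two (Pi.single xi 1), two (Pi.single xj 1), two (Pi.single yi 1),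
        two (Pi.single yj 1)]
      simp
    rw [this]; rfl
  obtain ⟨c, hc⟩ := hT.h1 _ hev
  have hzz : ∀ e, (z1 + z2 + si + sj) e ≠ 0 → z1 e ≠ 0 ∨ z2 e ≠ 0 ∨ e = g i ∨ e = g j := by
    intro e he
    by_contra hcon
    push Not at hcon
    obtain ⟨a1, a2, a3, a4⟩ := hcon
    apply he
    simp only [Pi.add_apply, a1, a2, hsi, hsj, Pi.single_eq_of_ne a3, Pi.single_eq_of_ne a4]
    rfl
  have hz1c : ∀ t, z1 (g t) = 0 := by
    intro t
    by_contra hne
    obtain ⟨y, hy, hyS⟩ := (mem_filter.1 (hcut t)).2.2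
    exact hyS (hPS (hz1e _ hne y hy).1)
  have hz2c : ∀ t, z2 (g t) = 0 := by
    intro t
    by_contra hne
    obtain ⟨y, hy, hyS⟩ := (mem_filter.1 (hcut t)).2.1
    exact (hz2e _ hne y hy).1 hyS
  have hcc : ∀ t < m, T.dF c (g t) ≠ 0 ↔ t = i ∨ t = j := by
    intro t ht
    rw [hc]
    constructor
    · intro h
      rcases hzz _ h with h | h | h | h
      · exact absurd (hz1c t) h
      · exact absurd (hz2c t) h
      · exact Or.inl (hi _ _ ht (by omega) h)
      · exact Or.inr (hi _ _ ht (by omega) h)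
    · intro h
      have hij : g i ≠ g j := fun h => by
        have := hi _ _ (by omega) (by omega) h
        omega
      rcases h with h | h
      · subst h
        simp only [Pi.add_apply, hz1c, hz2c, hsi, hsj, Pi.single_eq_same,
          Pi.single_eq_of_ne hij]
        decide
      · subst h
        simp only [Pi.add_apply, hz1c, hz2c, hsi, hsj, Pi.single_eq_same,
          Pi.single_eq_of_ne hij.symm]
        decide
  have ends : ∀ (e : T.E) (x y v : T.V), x ≠ y → T.inc e x → T.inc e y → T.inc e v →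
      v = x ∨ v = y := by
    intro e x y v hxy hx hy hv
    obtain ⟨a, b, _, hab⟩ := hT.inc_two e
    rcases (hab x).1 hx with h | h <;> rcases (hab y).1 hy with h' | h' <;>
      rcases (hab v).1 hv with h'' | h'' <;> subst_vars <;> simp_all
  have havoid : ∀ v ∈ P', v ∉ T.vs (T.dF c) := by
    intro v hv hvs
    rw [hc] at hvs
    obtain ⟨e, he, hev'⟩ := hvs
    rcases hzz _ he with h | h | h | h
    · exact hno ⟨v, (hz1e _ h v hev').1, hv⟩
    · exact (hz2e _ h v hev').1 (hPS' hv)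
    · subst h
      rcases ends _ _ _ _ hxyi hxi hyi hev' with h | h
      · exact hno ⟨v, h ▸ hxiP, hv⟩
      · exact hyiS (h ▸ hPS' hv)
    · subst h
      rcases ends _ _ _ _ hxyj hxj hyj hev' with h | h
      · exact hno ⟨v, h ▸ hxjP, hv⟩
      · exact hyjS (h ▸ hPS' hv)
  obtain ⟨n3, hn3⟩ := hP'.2 xk hxkP xl hxlP
  obtain ⟨fk, hfk⟩ := hf k
  obtain ⟨fl, hfl⟩ := hf l
  have heq := near_const hT havoid hn3 (f := fk) (g := fl) ⟨_, hfk.1, hxk⟩ ⟨_, hfl.1, hxl⟩
  exact contour_change hT h3 hm hp hi hg hf c (le_of_lt h1) h2 (le_of_lt h3') h4 hcc hfk hfl heq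

/-- `alt_S` for `S` and for the complement (`cut S = cut Sᶜ`) -/
theorem alt : AltStmt := by
  intro T hT _ h3 S hS hS' m g hm hp hi hg hf i k j l h1 h2 h3' h4 A hA P P' hPA hPA' hP hP'
    hPi hPj hPk hPl
  rcases hA with rfl | rfl
  · exact alt_S hT h3 hS hS' hm hp hi hg hf h1 h2 h3' h4 hPA hPA' hP hP' hPi hPj hPk hPl
  · have hcut : T.cut Sᶜ = T.cut S := by
      ext e
      simp only [PC.cut, mem_filter, mem_univ, true_and, Set.mem_compl_iff, not_not]
      exact and_comm
    refine alt_S hT h3 (S := Sᶜ) hS' ?_ hm hp hi ?_ hf h1 h2 h3' h4 hPA hPA' hP hP' hPi hPj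
      hPk hPl
    · rw [compl_compl]; exact hS
    · intro e; rw [hcut]; exact hg e

end Pool.Agent.H.MP_c8cc4c_co
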