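import Mathlib
import Pool.Agent.H.MP_c8cc4c_co.F.TriA
import Pool.Agent.H.MP_c8cc4c_co.E.Cocycle
import Pool.Agent.H.MP_c8cc4c_co.B.Conn
import Pool.Agent.H.MP_c8cc4c_co.B.Tau

/-! # MP_c8cc4c_co, part F, file 5: frontier and complement -/

open scoped Classical
open Finset

noncomputable section

namespace Pool.Agent.H.MP_c8cc4c_co

variable {T : PC}

theorem TriD_sum (P1 P2 P3 : Prop) [Decidable P1] [Decidable P2] [Decidable P3] (h : (P1 ∧ P2 ∧ ¬P3) ∨ (P1 ∧ ¬P2 ∧ P3) ∨ (¬P1 ∧ P2 ∧ P3) ∨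
    (¬P1 ∧ ¬P2 ∧ ¬P3)) : (if P1 then (1 : ZMod 2) else 0) + ((if P2 then 1 else 0) +
      (if P3 then 1 else 0)) = 0 := by
  rcases h with ⟨h1, h2, h3⟩ | ⟨h1, h2, h3⟩ | ⟨h1, h2, h3⟩ | ⟨h1, h2, h3⟩
  · rw [if_pos h1, if_pos h2, if_neg h3]
    decide
  · rw [if_pos h1, if_neg h2, if_pos h3]
    decide
  · rw [if_neg h1, if_pos h2, if_pos h3]
    decide
  · rw [if_neg h1, if_neg h2, if_neg h3]
    decide

/-- The frontier. Nonempty: the graph is connected. Let `X` be the component of `x` in the frontier `Fr` and suppose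
`y ∈ Fr`, `y ∉ X`. The indicator `w` of the edges between `S` and `X` is even on every triangle (if `a ∈ S`,
`b ∈ X`, the third vertex `c` is in `S`, or it is adjacent to `a ∈ S` so it is in `Fr`, and adjacent to `b ∈ X` so it
is in `X`: two edges in both cases). By `cocycle_two` it is `0` or nonzero on all of `cut S`; but `x` is adjacent to a vertex of
`S` and `y` too. -/
theorem frontier : FrontierStmt := by
  intro T hT hSi h3 S hS hS'
  set Fr : Set T.V := {x | x ∉ S ∧ ∃ y ∈ S, T.graph.Adj x y} with hFr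
  have hne : ∃ x, x ∈ Fr := by
    obtain ⟨s, hs⟩ := hS.1
    obtain ⟨y, hy⟩ := hS'.1
    obtain ⟨n, hn⟩ := hT.conn s y
    obtain ⟨u, v, k, l, -, h1, h2, h3', -⟩ := near_exit hn hs hy
    exact ⟨v, h3', u, (near_right h1).2, h2.symm⟩
  obtain ⟨x, hx⟩ := hne
  refine connOn_of_center hx ?_
  intro y hy
  change y ∈ comp T.graph Fr x
  by_contra hyX
  have hX := comp_isComp (G := T.graph) hx
  have hxX := mem_comp_self (G := T.graph) hx
  set X := comp T.graph Fr x with hXdef
  have hXS : ∀ v, v ∈ X → v ∉ S := fun v hv => (hX.2.1 hv).1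
  set w : T.E → ZMod 2 := fun e => if ∃ a b, T.inc e a ∧ T.inc e b ∧ a ∈ S ∧ b ∈ X then 1 else 0
    with hw
  have hwe : ∀ e u v, (∀ t, T.inc e t ↔ t = u ∨ t = v) → w e =
      if (u ∈ S ∧ v ∈ X) ∨ (v ∈ S ∧ u ∈ X) then 1 else 0 := by
    intro e u v h
    have : (∃ a b, T.inc e a ∧ T.inc e b ∧ a ∈ S ∧ b ∈ X) ↔
        ((u ∈ S ∧ v ∈ X) ∨ (v ∈ S ∧ u ∈ X)) := by
      constructor
      · rintro ⟨a, b, ha, hb, haS, hbX⟩
        rcases (h a).1 ha with rfl | rfl <;> rcases (h b).1 hb with rfl | rfl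
        · exact absurd haS (hXS _ hbX)
        · exact Or.inl ⟨haS, hbX⟩
        · exact Or.inr ⟨haS, hbX⟩
        · exact absurd haS (hXS _ hbX)
      · rintro (⟨h1, h2⟩ | ⟨h1, h2⟩)
        · exact ⟨u, v, (h u).2 (Or.inl rfl), (h v).2 (Or.inr rfl), h1, h2⟩
        · exact ⟨v, u, (h v).2 (Or.inr rfl), (h u).2 (Or.inl rfl), h1, h2⟩
    simp only [hw, this]
  have hcl : ∀ u v t, T.graph.Adj u v → T.graph.Adj v t → u ∈ X → v ∉ S → t ∈ S → v ∈ X :=
    fun u v t h1 h2 hu hv ht => hX.2.2 u hu v ⟨hv, t, ht, h2⟩ h1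
  have hface : ∀ f, ∑ e ∈ univ.filter (fun e => T.bd f e), w e = 0 := by
    intro f
    obtain ⟨a, b, c, ab, bc, ca, h1, h2, h3', h4, h5, h6, hbd, hat, hab, hbc, hca⟩ :=
      tri_face hT h3 f
    have hset : univ.filter (fun e => T.bd f e) = {ab, bc, ca} := by
      ext e
      simp [hbd e]
    rw [hset, Finset.sum_insert (by simp [h4, h6.symm]), Finset.sum_pair h5, hwe ab a b hab,
      hwe bc b c hbc, hwe ca c a hca]
    apply TriD_sum
    have aab : T.graph.Adj a b := ⟨h1, ab, (hab _).2 (Or.inl rfl), (hab _).2 (Or.inr rfl)⟩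
    have abc : T.graph.Adj b c := ⟨h2, bc, (hbc _).2 (Or.inl rfl), (hbc _).2 (Or.inr rfl)⟩
    have aca : T.graph.Adj c a := ⟨h3', ca, (hca _).2 (Or.inl rfl), (hca _).2 (Or.inr rfl)⟩
    have q1 := hcl a b c aab abc
    have q2 := hcl b c a abc aca
    have q3 := hcl c a b aca aab
    have q4 := hcl b a c aab.symm aca.symm
    have q5 := hcl c b a abc.symm aab.symm
    have q6 := hcl a c b aca.symm abc.symm
    have r1 := hXS a
    have r2 := hXS b
    have r3 := hXS c
    by_cases s1 : a ∈ S <;> by_cases s2 : b ∈ S <;> by_cases s3 : c ∈ S <;>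
      simp only [s1, s2, s3, not_true_eq_false, not_false_eq_true, imp_false, true_and,
        false_and, or_false, false_or, forall_const, false_imp_iff, imp_true_iff] at * <;> tauto
  have hw0 : ∀ e, e ∉ T.cut S → w e = 0 := by
    intro e he
    simp only [hw]
    rw [if_neg]
    rintro ⟨a, b, ha, hb, haS, hbX⟩
    apply he
    unfold PC.cut
    rw [Finset.mem_filter]
    exact ⟨Finset.mem_univ _, ⟨a, ha, haS⟩, b, hb, hXS b hbX⟩
  rcases cocycle_two T hT w hface S hS hS' hw0 with h | h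
  · obtain ⟨-, s, hs, -, e, hex, hes⟩ := hx
    have h5 := congrFun h e
    have h6 : ∃ a b, T.inc e a ∧ T.inc e b ∧ a ∈ S ∧ b ∈ X := ⟨s, x, hes, hex, hs, hxX⟩
    simp only [hw, if_pos h6, Pi.zero_apply] at h5
    exact one_ne_zero h5
  · obtain ⟨hyS, s, hs, hne, e, hey, hes⟩ := hy
    have he : e ∈ T.cut S := by
      unfold PC.cut
      rw [Finset.mem_filter]
      exact ⟨Finset.mem_univ _, ⟨s, hes, hs⟩, y, hey, hyS⟩
    have h5 := h e he
    have h6 : ∃ a b, T.inc e a ∧ T.inc e b ∧ a ∈ S ∧ b ∈ X := by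
      by_contra hno
      exact h5 (by simp only [hw, if_neg hno])
    obtain ⟨a, b, ha, hb, haS, hbX⟩ := h6
    rcases (TriA_ends hT hne hey hes b).1 hb with rfl | rfl
    · exact hyX hbX
    · exact hXS _ hbX hs

/-- Complement. Suppose there are `x`, `y` not in `S`, `y` not in the component `X` of `x` in `Sᶜ`. Let `c = tau X`. If `e` is in `dF c`
then (`dtau`) its ends are not in `X` and it is in a triangle which meets `X`; so its ends are adjacent to `X`, so they are in `S` (otherwise they would be in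
`X`). By hypothesis the edges of `dF c` have their ends in `O`. By `near_const` in `Oᶜ`, `c` has the same value on the faces at `x`
(value `1`; there is a face by `exists_at`) and at `y`: a triangle at `y` does not meet `X`, value `0`. -/
theorem compl_conn : ComplConnStmt := by
  intro T hT hSi h3 S O hOS hO hex hev
  obtain ⟨x, hx⟩ := hex
  refine connOn_of_center (x := x) hx ?_
  intro y hy
  change y ∈ comp T.graph Sᶜ x
  by_contra hyX
  have hX := comp_isComp (G := T.graph) (A := Sᶜ) hx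
  have hxX := mem_comp_self (G := T.graph) (A := Sᶜ) hx
  set X := comp T.graph Sᶜ x with hXdef
  have hxy : x ≠ y := by
    rintro rfl
    exact hyX hxX
  have hS1 : ∀ e u, T.dF (tau T X) e ≠ 0 → T.inc e u → u ∈ S := by
    intro e u he hu
    obtain ⟨h1, f, hf, v, hv, hfv⟩ := dtau hT he
    have huX := h1 u hu
    have hvu : v ≠ u := by
      rintro rfl
      exact huX hv
    have hadj := (tri_adj hT h3 hfv ⟨e, hf, hu⟩ hvu).1
    by_contra hno
    exact huX (hX.2.2 v hv u hno hadj)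
  have hO1 := hev _ (ev_dF hT (tau T X)) hS1
  obtain ⟨n, hn⟩ := hO.2 x (fun h => hx (hOS h)) y (fun h => hy (hOS h))
  obtain ⟨f, hf⟩ := exists_at hT hxy
  obtain ⟨g, hg⟩ := exists_at hT hxy.symm
  have hconst := near_const hT (c := tau T X) (A := Oᶜ) (by
    rintro v hv ⟨e, he, hev'⟩
    exact hv (hO1 e v he hev')) hn hf hg
  rw [tau_one hxX hf] at hconst
  have hg0 : tau T X g = 0 := by
    unfold tau
    rw [if_neg]
    rintro ⟨v, hv, hgv⟩
    have hvy : v ≠ y := by
      rintro rfl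
      exact hyX hv
    exact hyX (hX.2.2 v hv y hy (tri_adj hT h3 hgv hg hvy).1)
  rw [hg0] at hconst
  exact one_ne_zero hconst

end Pool.Agent.H.MP_c8cc4c_co
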