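import Mathlib
import Pool.Agent.H.MP_c8cc4c_co.B.Path
import Pool.Agent.H.MP_c8cc4c_co.B.Conn
import Pool.Agent.H.MP_c8cc4c_co.Iface

/-! # MP_c8cc4c_co, part F, file 6: the barycentric subdivision -/

open scoped Classical
open Finset

noncomputable section

namespace Pool.Agent.H.MP_c8cc4c_co

variable {M : PC}

theorem SdA_below_ne {c d : M.Cell} (h : M.below c d) : c ≠ d := by
  rintro rfl
  rcases c with x | e | f <;> exact h

theorem SdA_below_asymm {c d : M.Cell} (h : M.below c d) (h' : M.below d c) : False := by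
  rcases c with x | e | f <;> rcases d with x' | e' | f' <;>
    first
    | exact h
    | exact h'

theorem SdA_cv_inj {x y : M.V} : M.cv x = M.cv y ↔ x = y :=
  ⟨fun h => Sum.inl.inj h, fun h => by rw [h]⟩

theorem SdA_ce_inj {x y : M.E} : M.ce x = M.ce y ↔ x = y :=
  ⟨fun h => Sum.inl.inj (Sum.inr.inj h), fun h => by rw [h]⟩

theorem SdA_cf_inj {x y : M.F} : M.cf x = M.cf y ↔ x = y :=
  ⟨fun h => Sum.inr.inj (Sum.inr.inj h), fun h => by rw [h]⟩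

theorem SdA_cv_ce {x : M.V} {e : M.E} : M.cv x ≠ M.ce e := fun h => by
  exact Sum.inl_ne_inr h

theorem SdA_cv_cf {x : M.V} {e : M.F} : M.cv x ≠ M.cf e := fun h => by
  exact Sum.inl_ne_inr h

theorem SdA_ce_cf {x : M.E} {e : M.F} : M.ce x ≠ M.cf e := fun h => by
  exact Sum.inl_ne_inr (Sum.inr.inj h)

/-- the edge `v < e` of the subdivision -/
def SdA_ve (x : M.V) (e : M.E) (h : M.inc e x) : M.sdPC.E := ⟨(M.cv x, M.ce e), h⟩

/-- the edge `v < f` of the subdivision -/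
def SdA_vf (x : M.V) (f : M.F) (h : M.At f x) : M.sdPC.E := ⟨(M.cv x, M.cf f), h⟩

/-- the edge `e < f` of the subdivision -/
def SdA_ef (e : M.E) (f : M.F) (h : M.bd f e) : M.sdPC.E := ⟨(M.ce e, M.cf f), h⟩

/-- the flags -/
def SdA_fl (x : M.V) (e : M.E) (f : M.F) (h : M.inc e x) (h' : M.bd f e) : M.sdPC.F :=
  ⟨(x, e, f), h, h'⟩

theorem SdA_edge_cases (p : M.sdPC.E) :
    (∃ x e h, p = SdA_ve x e h) ∨ (∃ x f h, p = SdA_vf x f h) ∨ ∃ e f h, p = SdA_ef e f h := by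
  obtain ⟨⟨c, d⟩, h⟩ := p
  rcases c with x | e | f
  · rcases d with x' | e' | f'
    · exact absurd h id
    · exact Or.inl ⟨x, e', h, rfl⟩
    · exact Or.inr (Or.inl ⟨x, f', h, rfl⟩)
  · rcases d with x' | e' | f'
    · exact absurd h id
    · exact absurd h id
    · exact Or.inr (Or.inr ⟨e, f', h, rfl⟩)
  · rcases d with x' | e' | f' <;> exact absurd h id

theorem SdA_flag_cases (t : M.sdPC.F) : ∃ x e f h h', t = SdA_fl x e f h h' := by
  obtain ⟨⟨x, e, f⟩, h, h'⟩ := t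
  exact ⟨x, e, f, h, h', rfl⟩

theorem SdA_fl_inj {x : M.V} {e : M.E} {f : M.F} {h : M.inc e x} {h' : M.bd f e} {x1 : M.V}
    {e1 : M.E} {f1 : M.F} {h1 : M.inc e1 x1} {h1' : M.bd f1 e1} :
    SdA_fl x e f h h' = SdA_fl x1 e1 f1 h1 h1' ↔ x = x1 ∧ e = e1 ∧ f = f1 := by
  constructor
  · intro hh
    have := congrArg Subtype.val hh
    simp only [SdA_fl, Prod.mk.injEq] at this
    exact this
  · rintro ⟨rfl, rfl, rfl⟩
    rfl

theorem SdA_edge_ext {p q : M.sdPC.E} : p = q ↔ p.1 = q.1 :=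
  ⟨fun h => by rw [h], fun h => Subtype.ext h⟩

theorem SdA_bd_fl {x : M.V} {e : M.E} {f : M.F} {h : M.inc e x} {h' : M.bd f e}
    (p : M.sdPC.E) : M.sdPC.bd (SdA_fl x e f h h') p ↔
      p = SdA_ve x e h ∨ p = SdA_vf x f ⟨e, h', h⟩ ∨ p = SdA_ef e f h' := by
  exact or_congr (SdA_edge_ext (p := p) (q := SdA_ve x e h)).symm
    (or_congr (SdA_edge_ext (p := p) (q := SdA_vf x f ⟨e, h', h⟩)).symm
      (SdA_edge_ext (p := p) (q := SdA_ef e f h')).symm)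

theorem SdA_bd_ve {x : M.V} {e : M.E} {f : M.F} {h : M.inc e x} {h' : M.bd f e}
    {x1 : M.V} {e1 : M.E} {h1 : M.inc e1 x1} :
    M.sdPC.bd (SdA_fl x e f h h') (SdA_ve x1 e1 h1) ↔ x = x1 ∧ e = e1 := by
  change ((M.cv x1, M.ce e1) = (M.cv x, M.ce e) ∨ (M.cv x1, M.ce e1) = (M.cv x, M.cf f) ∨
    (M.cv x1, M.ce e1) = (M.ce e, M.cf f)) ↔ _
  simp only [Prod.mk.injEq, SdA_cv_inj, SdA_ce_inj, SdA_ce_cf, SdA_cv_ce, and_false,
    or_false]
  exact and_congr eq_comm eq_comm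

theorem SdA_bd_vf {x : M.V} {e : M.E} {f : M.F} {h : M.inc e x} {h' : M.bd f e}
    {x1 : M.V} {f1 : M.F} {h1 : M.At f1 x1} :
    M.sdPC.bd (SdA_fl x e f h h') (SdA_vf x1 f1 h1) ↔ x = x1 ∧ f = f1 := by
  change ((M.cv x1, M.cf f1) = (M.cv x, M.ce e) ∨ (M.cv x1, M.cf f1) = (M.cv x, M.cf f) ∨
    (M.cv x1, M.cf f1) = (M.ce e, M.cf f)) ↔ _
  simp only [Prod.mk.injEq, SdA_cv_inj, SdA_cf_inj, (SdA_ce_cf (M := M)).symm, SdA_cv_ce,
    and_false, false_and, or_false, false_or]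
  exact and_congr eq_comm eq_comm

theorem SdA_bd_ef {x : M.V} {e : M.E} {f : M.F} {h : M.inc e x} {h' : M.bd f e}
    {e1 : M.E} {f1 : M.F} {h1 : M.bd f1 e1} :
    M.sdPC.bd (SdA_fl x e f h h') (SdA_ef e1 f1 h1) ↔ e = e1 ∧ f = f1 := by
  change ((M.ce e1, M.cf f1) = (M.cv x, M.ce e) ∨ (M.ce e1, M.cf f1) = (M.cv x, M.cf f) ∨
    (M.ce e1, M.cf f1) = (M.ce e, M.cf f)) ↔ _
  simp only [Prod.mk.injEq, SdA_ce_inj, SdA_cf_inj, (SdA_cv_ce (M := M)).symm,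
    false_and, false_or]
  exact and_congr eq_comm eq_comm

theorem SdA_inc_iff (p : M.sdPC.E) (c : M.Cell) : M.sdPC.inc p c ↔ c = p.1.1 ∨ c = p.1.2 :=
  Iff.rfl

/-- adjacency in the subdivision -/
theorem sd_adj (c d : M.Cell) : M.sd.Adj c d ↔ M.below c d ∨ M.below d c := by
  change (c ≠ d ∧ ∃ e : M.sdPC.E, (c = e.1.1 ∨ c = e.1.2) ∧ (d = e.1.1 ∨ d = e.1.2)) ↔ _
  constructor
  · rintro ⟨hne, ⟨⟨a, b⟩, h⟩, h1, h2⟩
    simp only at h1 h2 h
    rcases h1 with rfl | rfl <;> rcases h2 with rfl | rfl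
    · exact absurd rfl hne
    · exact Or.inl h
    · exact Or.inr h
    · exact absurd rfl hne
  · rintro (h | h)
    · exact ⟨SdA_below_ne h, ⟨(c, d), h⟩, Or.inl rfl, Or.inr rfl⟩
    · exact ⟨(SdA_below_ne h).symm, ⟨(d, c), h⟩, Or.inr rfl, Or.inl rfl⟩

theorem sd_adj_ve {x : M.V} {e : M.E} : M.sd.Adj (M.cv x) (M.ce e) ↔ M.inc e x := by
  rw [sd_adj]
  exact ⟨fun h => h.elim id (fun h => absurd h id), Or.inl⟩

theorem sd_adj_vf {x : M.V} {f : M.F} : M.sd.Adj (M.cv x) (M.cf f) ↔ M.At f x := by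
  rw [sd_adj]
  exact ⟨fun h => h.elim id (fun h => absurd h id), Or.inl⟩

theorem sd_adj_ef {e : M.E} {f : M.F} : M.sd.Adj (M.ce e) (M.cf f) ↔ M.bd f e := by
  rw [sd_adj]
  exact ⟨fun h => h.elim id (fun h => absurd h id), Or.inl⟩

/-- every edge of the subdivision has its two ends -/
theorem sd_inc_two (M : PC) : ∀ e : M.sdPC.E, ∃ x y, x ≠ y ∧
    ∀ v, M.sdPC.inc e v ↔ v = x ∨ v = y :=
  fun e => ⟨e.1.1, e.1.2, SdA_below_ne e.2, fun _ => Iff.rfl⟩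

theorem sd_simple (M : PC) : M.sdPC.Simple := by
  rintro ⟨⟨a, b⟩, h⟩ ⟨⟨a', b'⟩, h'⟩ x y hxy h1 h2 h3 h4
  change x = a ∨ x = b at h1
  change y = a ∨ y = b at h2
  change x = a' ∨ x = b' at h3
  change y = a' ∨ y = b' at h4
  rcases h1 with rfl | rfl <;> rcases h2 with rfl | rfl
  · exact absurd rfl hxy
  · rcases h3 with rfl | rfl <;> rcases h4 with rfl | rfl
    · exact absurd rfl hxy
    · rfl
    · exact absurd (SdA_below_asymm h h') id
    · exact absurd rfl hxy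
  · rcases h3 with rfl | rfl <;> rcases h4 with rfl | rfl
    · exact absurd rfl hxy
    · exact absurd (SdA_below_asymm h h') id
    · rfl
    · exact absurd rfl hxy
  · exact absurd rfl hxy

/-- An edge `v < e` is in the two flags `(v, e, f)`, `f` the two faces of `e`; an edge `v < f` is in the two
flags `(v, e, f)`, `e` the two edges of `f` at `v` (`face_two`); an edge `e < f` is in the two flags `(v, e, f)`, `v`
the two ends of `e`. -/
theorem sd_bd_two (hM : M.IsSphere) : ∀ e : M.sdPC.E, ∃ f g, f ≠ g ∧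
    ∀ h, M.sdPC.bd h e ↔ h = f ∨ h = g := by
  intro p
  rcases SdA_edge_cases p with ⟨x, e, h, rfl⟩ | ⟨x, f, h, rfl⟩ | ⟨e, f, h, rfl⟩
  · obtain ⟨f, g, hfg, hh⟩ := hM.bd_two e
    refine ⟨SdA_fl x e f h ((hh f).2 (Or.inl rfl)), SdA_fl x e g h ((hh g).2 (Or.inr rfl)), ?_, ?_⟩
    · rw [Ne, SdA_fl_inj]
      exact fun h => hfg h.2.2
    · intro t
      obtain ⟨x1, e1, f1, h1, h1', rfl⟩ := SdA_flag_cases t
      rw [SdA_bd_ve, SdA_fl_inj, SdA_fl_inj]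
      constructor
      · rintro ⟨rfl, rfl⟩
        rcases (hh f1).1 h1' with rfl | rfl
        · exact Or.inl ⟨rfl, rfl, rfl⟩
        · exact Or.inr ⟨rfl, rfl, rfl⟩
      · rintro (⟨rfl, rfl, rfl⟩ | ⟨rfl, rfl, rfl⟩) <;> exact ⟨rfl, rfl⟩
  · obtain ⟨e, e', hee, hh⟩ := hM.face_two f x h
    have he := (hh e).2 (Or.inl rfl)
    have he' := (hh e').2 (Or.inr rfl)
    refine ⟨SdA_fl x e f he.2 he.1, SdA_fl x e' f he'.2 he'.1, ?_, ?_⟩
    · rw [Ne, SdA_fl_inj]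
      exact fun h => hee h.2.1
    · intro t
      obtain ⟨x1, e1, f1, h1, h1', rfl⟩ := SdA_flag_cases t
      rw [SdA_bd_vf, SdA_fl_inj, SdA_fl_inj]
      constructor
      · rintro ⟨rfl, rfl⟩
        rcases (hh e1).1 ⟨h1', h1⟩ with rfl | rfl
        · exact Or.inl ⟨rfl, rfl, rfl⟩
        · exact Or.inr ⟨rfl, rfl, rfl⟩
      · rintro (⟨rfl, rfl, rfl⟩ | ⟨rfl, rfl, rfl⟩) <;> exact ⟨rfl, rfl⟩
  · obtain ⟨x, y, hxy, hh⟩ := hM.inc_two e
    refine ⟨SdA_fl x e f ((hh x).2 (Or.inl rfl)) h, SdA_fl y e f ((hh y).2 (Or.inr rfl)) h, ?_, ?_⟩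
    · rw [Ne, SdA_fl_inj]
      exact fun h => hxy h.1
    · intro t
      obtain ⟨x1, e1, f1, h1, h1', rfl⟩ := SdA_flag_cases t
      rw [SdA_bd_ef, SdA_fl_inj, SdA_fl_inj]
      constructor
      · rintro ⟨rfl, rfl⟩
        rcases (hh x1).1 h1 with rfl | rfl
        · exact Or.inl ⟨rfl, rfl, rfl⟩
        · exact Or.inr ⟨rfl, rfl, rfl⟩
      · rintro (⟨rfl, rfl, rfl⟩ | ⟨rfl, rfl, rfl⟩) <;> exact ⟨rfl, rfl⟩

theorem SdA_inc_ve {x : M.V} {e : M.E} {h : M.inc e x} (c : M.Cell) :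
    M.sdPC.inc (SdA_ve x e h) c ↔ c = M.cv x ∨ c = M.ce e := Iff.rfl

theorem SdA_inc_vf {x : M.V} {f : M.F} {h : M.At f x} (c : M.Cell) :
    M.sdPC.inc (SdA_vf x f h) c ↔ c = M.cv x ∨ c = M.cf f := Iff.rfl

theorem SdA_inc_ef {e : M.E} {f : M.F} {h : M.bd f e} (c : M.Cell) :
    M.sdPC.inc (SdA_ef e f h) c ↔ c = M.ce e ∨ c = M.cf f := Iff.rfl

theorem SdA_ne1 {x : M.V} {e : M.E} {f : M.F} {h : M.inc e x} {h' : M.At f x} :
    SdA_ve x e h ≠ SdA_vf x f h' := by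
  intro hh
  have := congrArg (fun p => p.1.2) hh
  exact SdA_ce_cf this

theorem SdA_ne2 {x : M.V} {e : M.E} {f : M.F} {h : M.inc e x} {h' : M.bd f e} :
    SdA_ve x e h ≠ SdA_ef e f h' := by
  intro hh
  have := congrArg (fun p => p.1.2) hh
  exact SdA_ce_cf this

theorem SdA_ne3 {x : M.V} {e : M.E} {f : M.F} {h : M.At f x} {h' : M.bd f e} :
    SdA_vf x f h ≠ SdA_ef e f h' := by
  intro hh
  have := congrArg (fun p => p.1.1) hh
  exact SdA_cv_ce this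

/-- the two edges of a flag at its vertex cell -/
theorem SdA_at_v {x : M.V} {e : M.E} {f : M.F} {h : M.inc e x} {h' : M.bd f e}
    (d : M.sdPC.E) : (M.sdPC.bd (SdA_fl x e f h h') d ∧ M.sdPC.inc d (M.cv x)) ↔
      d = SdA_ve x e h ∨ d = SdA_vf x f ⟨e, h', h⟩ := by
  rw [SdA_bd_fl]
  constructor
  · rintro ⟨rfl | rfl | rfl, hi⟩
    · exact Or.inl rfl
    · exact Or.inr rfl
    · rcases (SdA_inc_ef _).1 hi with h1 | h1
      · exact absurd h1 SdA_cv_ce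
      · exact absurd h1 SdA_cv_cf
  · rintro (rfl | rfl)
    · exact ⟨Or.inl rfl, Or.inl rfl⟩
    · exact ⟨Or.inr (Or.inl rfl), Or.inl rfl⟩

/-- the two edges of a flag at its edge cell -/
theorem SdA_at_e {x : M.V} {e : M.E} {f : M.F} {h : M.inc e x} {h' : M.bd f e}
    (d : M.sdPC.E) : (M.sdPC.bd (SdA_fl x e f h h') d ∧ M.sdPC.inc d (M.ce e)) ↔
      d = SdA_ve x e h ∨ d = SdA_ef e f h' := by
  rw [SdA_bd_fl]
  constructor
  · rintro ⟨rfl | rfl | rfl, hi⟩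
    · exact Or.inl rfl
    · rcases (SdA_inc_vf _).1 hi with h1 | h1
      · exact absurd h1.symm SdA_cv_ce
      · exact absurd h1 SdA_ce_cf
    · exact Or.inr rfl
  · rintro (rfl | rfl)
    · exact ⟨Or.inl rfl, Or.inr rfl⟩
    · exact ⟨Or.inr (Or.inr rfl), Or.inl rfl⟩

/-- the two edges of a flag at its face cell -/
theorem SdA_at_f {x : M.V} {e : M.E} {f : M.F} {h : M.inc e x} {h' : M.bd f e}
    (d : M.sdPC.E) : (M.sdPC.bd (SdA_fl x e f h h') d ∧ M.sdPC.inc d (M.cf f)) ↔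
      d = SdA_vf x f ⟨e, h', h⟩ ∨ d = SdA_ef e f h' := by
  rw [SdA_bd_fl]
  constructor
  · rintro ⟨rfl | rfl | rfl, hi⟩
    · rcases (SdA_inc_ve _).1 hi with h1 | h1
      · exact absurd h1.symm SdA_cv_cf
      · exact absurd h1.symm SdA_ce_cf
    · exact Or.inl rfl
    · exact Or.inr rfl
  · rintro (rfl | rfl)
    · exact ⟨Or.inr (Or.inl rfl), Or.inr rfl⟩
    · exact ⟨Or.inr (Or.inr rfl), Or.inr rfl⟩

/-- the cells of a flag -/
theorem SdA_At_fl {x : M.V} {e : M.E} {f : M.F} {h : M.inc e x} {h' : M.bd f e} (c : M.Cell) :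
    M.sdPC.At (SdA_fl x e f h h') c ↔ c = M.cv x ∨ c = M.ce e ∨ c = M.cf f := by
  constructor
  · rintro ⟨d, hd, hc⟩
    rcases (SdA_bd_fl d).1 hd with rfl | rfl | rfl
    · rcases (SdA_inc_ve _).1 hc with h1 | h1
      · exact Or.inl h1
      · exact Or.inr (Or.inl h1)
    · rcases (SdA_inc_vf _).1 hc with h1 | h1
      · exact Or.inl h1
      · exact Or.inr (Or.inr h1)
    · rcases (SdA_inc_ef _).1 hc with h1 | h1
      · exact Or.inr (Or.inl h1)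
      · exact Or.inr (Or.inr h1)
  · rintro (rfl | rfl | rfl)
    · exact ⟨SdA_ve x e h, (SdA_bd_fl _).2 (Or.inl rfl), Or.inl rfl⟩
    · exact ⟨SdA_ve x e h, (SdA_bd_fl _).2 (Or.inl rfl), Or.inr rfl⟩
    · exact ⟨SdA_ef e f h', (SdA_bd_fl _).2 (Or.inr (Or.inr rfl)), Or.inr rfl⟩

theorem sd_face_two (M : PC) : ∀ (f : M.sdPC.F) v, M.sdPC.At f v → ∃ e e', e ≠ e' ∧
    ∀ d, (M.sdPC.bd f d ∧ M.sdPC.inc d v) ↔ d = e ∨ d = e' := by
  intro t c hc
  obtain ⟨x, e, f, h, h', rfl⟩ := SdA_flag_cases t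
  rcases (SdA_At_fl c).1 hc with rfl | rfl | rfl
  · exact ⟨_, _, SdA_ne1, SdA_at_v⟩
  · exact ⟨_, _, SdA_ne2, SdA_at_e⟩
  · exact ⟨_, _, SdA_ne3, SdA_at_f⟩

theorem sd_tri (M : PC) : M.sdPC.Tri := by
  constructor
  · intro t
    obtain ⟨x, e, f, h, h', rfl⟩ := SdA_flag_cases t
    have : univ.filter (fun d => M.sdPC.bd (SdA_fl x e f h h') d) =
        {SdA_ve x e h, SdA_vf x f ⟨e, h', h⟩, SdA_ef e f h'} := by
      ext d
      rw [Finset.mem_filter, SdA_bd_fl]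
      simp
    unfold PC.len
    rw [this, Finset.card_eq_three]
    exact ⟨_, _, _, SdA_ne1, SdA_ne2, SdA_ne3, rfl⟩
  · intro t t' hh
    obtain ⟨x, e, f, h, h', rfl⟩ := SdA_flag_cases t
    obtain ⟨x1, e1, f1, h1, h1', rfl⟩ := SdA_flag_cases t'
    have h2 := hh (SdA_ve x e h) ((SdA_bd_fl _).2 (Or.inl rfl))
    have h3 := hh (SdA_ef e f h') ((SdA_bd_fl _).2 (Or.inr (Or.inr rfl)))
    rw [SdA_bd_ve] at h2
    rw [SdA_bd_ef] at h3
    rw [SdA_fl_inj]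
    exact ⟨h2.1.symm, h2.2.symm, h3.2.symm⟩

theorem SdA_two_sum {z : M.sdPC.E → ZMod 2} (hz : M.sdPC.Ev z) {t : M.sdPC.F}
    (hs : ∀ e, z e ≠ 0 → M.sdPC.bd t e) {c : M.Cell} {e e' : M.sdPC.E} (hne : e ≠ e')
    (h : ∀ d, (M.sdPC.bd t d ∧ M.sdPC.inc d c) ↔ d = e ∨ d = e') : z e = z e' := by
  have h1 := hz c
  unfold PC.dE at h1
  have h2 : ∑ d ∈ univ.filter (fun d => M.sdPC.inc d c), z d = ∑ d ∈ {e, e'}, z d := by
    refine (Finset.sum_subset ?_ ?_).symm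
    · intro d hd
      rw [Finset.mem_insert, Finset.mem_singleton] at hd
      rw [Finset.mem_filter]
      exact ⟨Finset.mem_univ _, ((h d).2 hd).2⟩
    · intro d hd hd'
      by_contra hzd
      apply hd'
      rw [Finset.mem_filter] at hd
      rw [Finset.mem_insert, Finset.mem_singleton]
      exact (h d).1 ⟨hs d hzd, hd.2⟩
  rw [h2, Finset.sum_pair hne] at h1
  exact CharTwo.add_eq_zero.1 h1

/-- an even chain supported in a triangle: two edges of the triangle meet in a vertex which is on no third edge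
of the triangle, so they have the same coefficient -/
theorem sd_face_cyc (M : PC) : ∀ (f : M.sdPC.F) (z : M.sdPC.E → ZMod 2), M.sdPC.Ev z →
    (∀ e, z e ≠ 0 → M.sdPC.bd f e) → z = 0 ∨ ∀ e, M.sdPC.bd f e → z e ≠ 0 := by
  intro t z hz hs
  obtain ⟨x, e, f, h, h', rfl⟩ := SdA_flag_cases t
  have h1 := SdA_two_sum hz hs SdA_ne1 SdA_at_v
  have h2 := SdA_two_sum hz hs SdA_ne2 SdA_at_e
  by_cases h0 : z (SdA_ve x e h) = 0
  · left
    funext d
    by_contra hd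
    rcases (SdA_bd_fl d).1 (hs d hd) with rfl | rfl | rfl
    · exact hd h0
    · exact hd (h1.symm.trans h0)
    · exact hd (h2.symm.trans h0)
  · right
    intro d hd
    rcases (SdA_bd_fl d).1 hd with rfl | rfl | rfl
    · exact h0
    · exact fun h3 => h0 (h1.trans h3)
    · exact fun h3 => h0 (h2.trans h3)

/-- every cell is equal or adjacent to a vertex cell; adjacent vertices are joined via their edge -/
theorem sd_conn (hM : M.IsSphere) (x y : M.Cell) : ∃ n, Near M.sdPC.graph Set.univ n x y := by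
  have hadj : ∀ {c d : M.Cell}, M.sd.Adj c d → Near M.sd Set.univ 1 c d := fun h =>
    near_adj (Set.mem_univ _) (Set.mem_univ _) h
  have h1 : ∀ c : M.Cell, ∃ x n, Near M.sd Set.univ n (M.cv x) c := by
    rintro (x | e | f)
    · exact ⟨x, 0, near_refl (Set.mem_univ _)⟩
    · obtain ⟨x, y, hxy, h⟩ := hM.inc_two e
      exact ⟨x, 1, hadj (sd_adj_ve.2 ((h x).2 (Or.inl rfl)))⟩
    · obtain ⟨e, he⟩ := hM.face_ne f
      obtain ⟨x, y, hxy, h⟩ := hM.inc_two e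
      exact ⟨x, 1, hadj (sd_adj_vf.2 ⟨e, he, (h x).2 (Or.inl rfl)⟩)⟩
  have h2 : ∀ u v : M.V, ∃ n, Near M.sd Set.univ n (M.cv u) (M.cv v) := by
    intro u v
    obtain ⟨n, hn⟩ := hM.conn u v
    refine near_induct (fun w => ∃ n, Near M.sd Set.univ n (M.cv u) (M.cv w)) ?_ hn
      ⟨0, near_refl (Set.mem_univ _)⟩
    rintro a b - - ⟨-, e, ha, hb⟩ ⟨m, hm⟩
    exact ⟨m + 1 + 1, near_trans (near_trans hm (hadj (sd_adj_ve.2 ha)))
      (near_symm (hadj (sd_adj_ve.2 hb)))⟩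
  obtain ⟨u, m, hu⟩ := h1 x
  obtain ⟨v, n, hv⟩ := h1 y
  obtain ⟨k, hk⟩ := h2 u v
  exact ⟨_, near_trans (near_trans (near_symm hu) hk) hv⟩

end Pool.Agent.H.MP_c8cc4c_co
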