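import Mathlib
import Pool.Agent.H.MP_c8cc4c_co.F.SdA

/-! # MP_c8cc4c_co, part F, file 7: the star property of the subdivision -/

open scoped Classical
open Finset

noncomputable section

namespace Pool.Agent.H.MP_c8cc4c_co

variable {M : PC}

theorem SdB_eq (hM : M.IsSphere) {c : M.sdPC.F → ZMod 2} {d : M.sdPC.E}
    (h : M.sdPC.dF c d = 0) {t t' : M.sdPC.F} (ht : M.sdPC.bd t d) (ht' : M.sdPC.bd t' d) :
    c t = c t' := by
  obtain ⟨f, g, hfg, hh⟩ := sd_bd_two hM d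
  have h1 : univ.filter (fun t => M.sdPC.bd t d) = {f, g} := by
    ext u
    rw [Finset.mem_filter, hh u]
    simp
  unfold PC.dF at h
  rw [h1, Finset.sum_pair hfg] at h
  have h2 := CharTwo.add_eq_zero.1 h
  rcases (hh t).1 ht with rfl | rfl <;> rcases (hh t').1 ht' with rfl | rfl
  · rfl
  · exact h2
  · exact h2.symm
  · rfl

theorem SdB_flag {t : M.sdPC.F} {c : M.Cell} (h : M.sdPC.At t c) :
    (∃ x e f h h', t = SdA_fl x e f h h' ∧ c = M.cv x) ∨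
    (∃ x e f h h', t = SdA_fl x e f h h' ∧ c = M.ce e) ∨
    ∃ x e f h h', t = SdA_fl x e f h h' ∧ c = M.cf f := by
  obtain ⟨x, e, f, h1, h2, rfl⟩ := SdA_flag_cases t
  rcases (SdA_At_fl c).1 h with rfl | rfl | rfl
  · exact Or.inl ⟨x, e, f, h1, h2, rfl, rfl⟩
  · exact Or.inr (Or.inl ⟨x, e, f, h1, h2, rfl, rfl⟩)
  · exact Or.inr (Or.inr ⟨x, e, f, h1, h2, rfl, rfl⟩)

/-- Star at a vertex cell `v`: define `c' f` = value of `c` on a flag `(v, e, f)`; it does not depend on `e` (cross the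
edge `v < f`); crossing the edge `v < e` shows `dF c' e = 0` for the edges `e` at `v`; use `star` of `M`. -/
theorem sd_star_v (hM : M.IsSphere) (v : M.V) (c : M.sdPC.F → ZMod 2)
    (h : ∀ e, M.sdPC.inc e (M.cv v) → M.sdPC.dF c e = 0) :
    ∀ f g, M.sdPC.At f (M.cv v) → M.sdPC.At g (M.cv v) → c f = c g := by
  set c' : M.F → ZMod 2 := fun f =>
    if hh : ∃ e, M.inc e v ∧ M.bd f e then
      c (SdA_fl v hh.choose f hh.choose_spec.1 hh.choose_spec.2) else 0 with hc'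
  have h1 : ∀ e f (h1 : M.inc e v) (h2 : M.bd f e), c (SdA_fl v e f h1 h2) = c' f := by
    intro e f h1 h2
    have hex : ∃ e, M.inc e v ∧ M.bd f e := ⟨e, h1, h2⟩
    simp only [hc', dif_pos hex]
    exact SdB_eq hM (h (SdA_vf v f ⟨e, h2, h1⟩) (Or.inl rfl)) (SdA_bd_vf.2 ⟨rfl, rfl⟩)
      (SdA_bd_vf.2 ⟨rfl, rfl⟩)
  have h2 : ∀ e, M.inc e v → M.dF c' e = 0 := by
    intro e he
    rw [dF_zero_iff hM]
    intro f g hf hg
    rw [← h1 e f he hf, ← h1 e g he hg]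
    exact SdB_eq hM (h (SdA_ve v e he) (Or.inl rfl)) (SdA_bd_ve.2 ⟨rfl, rfl⟩)
      (SdA_bd_ve.2 ⟨rfl, rfl⟩)
  have h3 := hM.star v c' h2
  have h4 : ∀ t, M.sdPC.At t (M.cv v) → ∃ e f h1 h2, t = SdA_fl v e f h1 h2 := by
    intro t ht
    rcases SdB_flag ht with ⟨x, e, f, a, b, rfl, hx⟩ | ⟨x, e, f, a, b, rfl, hx⟩ |
      ⟨x, e, f, a, b, rfl, hx⟩
    · obtain rfl := SdA_cv_inj.1 hx
      exact ⟨e, f, a, b, rfl⟩
    · exact absurd hx SdA_cv_ce
    · exact absurd hx SdA_cv_cf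
  intro t t' ht ht'
  obtain ⟨e, f, a, b, rfl⟩ := h4 t ht
  obtain ⟨e', f', a', b', rfl⟩ := h4 t' ht'
  rw [h1, h1]
  exact h3 f f' ⟨e, b, a⟩ ⟨e', b', a'⟩

/-- Star at an edge cell: four flags. -/
theorem sd_star_e (hM : M.IsSphere) (e : M.E) (c : M.sdPC.F → ZMod 2)
    (h : ∀ d, M.sdPC.inc d (M.ce e) → M.sdPC.dF c d = 0) :
    ∀ f g, M.sdPC.At f (M.ce e) → M.sdPC.At g (M.ce e) → c f = c g := by
  have h4 : ∀ t, M.sdPC.At t (M.ce e) → ∃ x f h1 h2, t = SdA_fl x e f h1 h2 := by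
    intro t ht
    rcases SdB_flag ht with ⟨x, e', f, a, b, rfl, hx⟩ | ⟨x, e', f, a, b, rfl, hx⟩ |
      ⟨x, e', f, a, b, rfl, hx⟩
    · exact absurd hx.symm SdA_cv_ce
    · obtain rfl := SdA_ce_inj.1 hx
      exact ⟨x, f, a, b, rfl⟩
    · exact absurd hx SdA_ce_cf
  intro t t' ht ht'
  obtain ⟨x, f, a, b, rfl⟩ := h4 t ht
  obtain ⟨x', f', a', b', rfl⟩ := h4 t' ht'
  have h5 : c (SdA_fl x e f a b) = c (SdA_fl x e f' a b') :=
    SdB_eq hM (h (SdA_ve x e a) (Or.inr rfl)) (SdA_bd_ve.2 ⟨rfl, rfl⟩) (SdA_bd_ve.2 ⟨rfl, rfl⟩)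
  have h6 : c (SdA_fl x e f' a b') = c (SdA_fl x' e f' a' b') :=
    SdB_eq hM (h (SdA_ef e f' b') (Or.inl rfl)) (SdA_bd_ef.2 ⟨rfl, rfl⟩) (SdA_bd_ef.2 ⟨rfl, rfl⟩)
  exact h5.trans h6

/-- Star at a face cell `f`: the value of `c` on the flag `(v, e, f)` does not depend on the end `v` of `e` (cross
`e < f`); let `z e` = this value plus the value `a` on a fixed flag for the edges `e` of `f`, `z e = 0` for other
edges; crossing `v < f` shows that `z` is even; by `face_cyc` it is `0`. -/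
theorem sd_star_f (hM : M.IsSphere) (f0 : M.F) (c : M.sdPC.F → ZMod 2)
    (h : ∀ d, M.sdPC.inc d (M.cf f0) → M.sdPC.dF c d = 0) :
    ∀ f g, M.sdPC.At f (M.cf f0) → M.sdPC.At g (M.cf f0) → c f = c g := by
  have h4 : ∀ t, M.sdPC.At t (M.cf f0) → ∃ x e h1 h2, t = SdA_fl x e f0 h1 h2 := by
    intro t ht
    rcases SdB_flag ht with ⟨x, e', f, a, b, rfl, hx⟩ | ⟨x, e', f, a, b, rfl, hx⟩ |
      ⟨x, e', f, a, b, rfl, hx⟩
    · exact absurd hx.symm SdA_cv_cf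
    · exact absurd hx.symm SdA_ce_cf
    · obtain rfl := SdA_cf_inj.1 hx
      exact ⟨x, e', a, b, rfl⟩
  intro t t' ht ht'
  obtain ⟨x0, e0, a0, b0, rfl⟩ := h4 t' ht'
  set a : ZMod 2 := c (SdA_fl x0 e0 f0 a0 b0) with ha
  set val : M.E → ZMod 2 := fun e =>
    if hh : ∃ x, M.inc e x ∧ M.bd f0 e then
      c (SdA_fl hh.choose e f0 hh.choose_spec.1 hh.choose_spec.2) else 0 with hval
  have h1 : ∀ x e (h1 : M.inc e x) (h2 : M.bd f0 e), c (SdA_fl x e f0 h1 h2) = val e := by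
    intro x e h1 h2
    have hex : ∃ x, M.inc e x ∧ M.bd f0 e := ⟨x, h1, h2⟩
    simp only [hval, dif_pos hex]
    exact SdB_eq hM (h (SdA_ef e f0 h2) (Or.inr rfl)) (SdA_bd_ef.2 ⟨rfl, rfl⟩)
      (SdA_bd_ef.2 ⟨rfl, rfl⟩)
  set z : M.E → ZMod 2 := fun e => if M.bd f0 e then val e + a else 0 with hz
  have hz1 : ∀ e, z e ≠ 0 → M.bd f0 e := by
    intro e he
    by_contra hno
    exact he (by simp only [hz, if_neg hno])
  have hz2 : M.Ev z := by
    intro v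
    have h2 : M.dE z v = ∑ d ∈ univ.filter (fun d => M.bd f0 d ∧ M.inc d v), z d := by
      unfold PC.dE
      refine (Finset.sum_subset ?_ ?_).symm
      · intro d hd
        rw [Finset.mem_filter] at hd ⊢
        exact ⟨hd.1, hd.2.2⟩
      · intro d hd hd'
        by_contra hzd
        apply hd'
        rw [Finset.mem_filter] at hd ⊢
        exact ⟨hd.1, hz1 d hzd, hd.2⟩
    rw [h2]
    by_cases hv : M.At f0 v
    · obtain ⟨e, e', hne, hh⟩ := hM.face_two f0 v hv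
      have h3 : univ.filter (fun d => M.bd f0 d ∧ M.inc d v) = {e, e'} := by
        ext d
        simp [hh d]
      rw [h3, Finset.sum_pair hne]
      have he := (hh e).2 (Or.inl rfl)
      have he' := (hh e').2 (Or.inr rfl)
      have h5 : val e = val e' := by
        rw [← h1 v e he.2 he.1, ← h1 v e' he'.2 he'.1]
        exact SdB_eq hM (h (SdA_vf v f0 ⟨e, he.1, he.2⟩) (Or.inr rfl)) (SdA_bd_vf.2 ⟨rfl, rfl⟩)
          (SdA_bd_vf.2 ⟨rfl, rfl⟩)
      simp only [hz, if_pos he.1, if_pos he'.1, h5]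
      exact CharTwo.add_self_eq_zero _
    · have h3 : univ.filter (fun d => M.bd f0 d ∧ M.inc d v) = ∅ := by
        ext d
        simp only [Finset.mem_filter, Finset.mem_univ, true_and, Finset.notMem_empty, iff_false]
        exact fun h => hv ⟨d, h⟩
      rw [h3, Finset.sum_empty]
  have hz0 : z = 0 := by
    rcases hM.face_cyc f0 z hz2 hz1 with h5 | h5
    · exact h5
    · exfalso
      apply h5 e0 b0
      simp only [hz, if_pos b0]
      rw [← h1 x0 e0 a0 b0]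
      exact CharTwo.add_self_eq_zero _
  obtain ⟨x, e, a1, b1, rfl⟩ := h4 t ht
  have h5 := congrFun hz0 e
  simp only [hz, if_pos b1, Pi.zero_apply] at h5
  rw [h1]
  exact CharTwo.add_eq_zero.1 h5

end Pool.Agent.H.MP_c8cc4c_co
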