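import Mathlib
import Pool.Agent.H.MP_c8cc4c_co.F.SdB
import Pool.Agent.H.MP_c8cc4c_co.E.Builder

/-! # MP_c8cc4c_co, part F, file 8: the subdivision is a sphere -/

open scoped Classical
open Finset

noncomputable section

namespace Pool.Agent.H.MP_c8cc4c_co

variable {M : PC}

/-- number of flags: for every edge two ends and two faces -/
theorem sd_card_F (hM : M.IsSphere) : Fintype.card M.sdPC.F = 4 * Fintype.card M.E := by
  have hequiv : M.sdPC.F ≃ Σ e : M.E, {x // M.inc e x} × {f // M.bd f e} :=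
    { toFun := fun t => ⟨t.1.2.1, ⟨t.1.1, t.2.1⟩, ⟨t.1.2.2, t.2.2⟩⟩
      invFun := fun s => ⟨(s.2.1.1, s.1, s.2.2.1), s.2.1.2, s.2.2.2⟩
      left_inv := fun _ => rfl
      right_inv := fun _ => rfl }
  have h1 : ∀ e : M.E, Fintype.card ({x // M.inc e x} × {f // M.bd f e}) = 4 := by
    intro e
    obtain ⟨x, y, hxy, h⟩ := hM.inc_two e
    obtain ⟨f, g, hfg, h'⟩ := hM.bd_two e
    have h2 : Fintype.card {x // M.inc e x} = 2 := by
      rw [Fintype.card_subtype]
      have : univ.filter (fun x => M.inc e x) = {x, y} := by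
        ext d
        simp [h d]
      rw [this, Finset.card_pair hxy]
    have h3 : Fintype.card {f // M.bd f e} = 2 := by
      rw [Fintype.card_subtype]
      have : univ.filter (fun f => M.bd f e) = {f, g} := by
        ext d
        simp [h' d]
      rw [this, Finset.card_pair hfg]
    rw [Fintype.card_prod, h2, h3]
  rw [Fintype.card_congr hequiv, Fintype.card_sigma, Finset.sum_congr rfl (fun e _ => h1 e),
    Finset.sum_const, smul_eq_mul, mul_comm, Finset.card_univ]

/-- number of edges of the subdivision: `2|E|` of type `v < e`, `2|E|` of type `e < f`, and `2|E|` of type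
`v < f` (each such pair is in exactly two flags by `face_two`, and there are `4|E|` flags) -/
theorem sd_card_E (hM : M.IsSphere) : Fintype.card M.sdPC.E = 6 * Fintype.card M.E := by
  have h1 : ∑ p : M.sdPC.E, ∑ t : M.sdPC.F, (if M.sdPC.bd t p then 1 else 0) =
      2 * Fintype.card M.sdPC.E := by
    have h2 : ∀ p : M.sdPC.E, ∑ t : M.sdPC.F, (if M.sdPC.bd t p then 1 else 0) = 2 := by
      intro p
      rw [← Finset.card_filter]
      obtain ⟨f, g, hfg, h⟩ := sd_bd_two hM p
      have : univ.filter (fun t => M.sdPC.bd t p) = {f, g} := by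
        ext d
        simp [h d]
      rw [this, Finset.card_pair hfg]
    rw [Finset.sum_congr rfl (fun p _ => h2 p), Finset.sum_const, smul_eq_mul, mul_comm,
      Finset.card_univ]
  have h3 : ∑ p : M.sdPC.E, ∑ t : M.sdPC.F, (if M.sdPC.bd t p then 1 else 0) =
      3 * Fintype.card M.sdPC.F := by
    rw [Finset.sum_comm]
    have h2 : ∀ t : M.sdPC.F, ∑ p : M.sdPC.E, (if M.sdPC.bd t p then 1 else 0) = 3 := by
      intro t
      rw [← Finset.card_filter]
      exact (sd_tri M).1 t
    rw [Finset.sum_congr rfl (fun p _ => h2 p), Finset.sum_const, smul_eq_mul, mul_comm,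
      Finset.card_univ]
  have h4 := sd_card_F hM
  rw [h1] at h3
  omega

/-- `sphere_of_euler` -/
theorem sd_sphere : SdStmt := by
  intro M hM hF
  refine ⟨?_, sd_simple M, sd_tri M⟩
  refine sphere_of_euler M.sdPC (sd_inc_two M) (sd_bd_two hM) (sd_face_two M) ?_ (sd_face_cyc M)
    (sd_conn hM) ?_ ?_ ?_ ?_
  · intro t
    obtain ⟨x, e, f, h, h', rfl⟩ := SdA_flag_cases t
    exact ⟨SdA_ve x e h, (SdA_bd_fl _).2 (Or.inl rfl)⟩
  · obtain ⟨x⟩ := hM.nonempty
    exact ⟨M.cv x⟩
  · obtain ⟨f⟩ := hF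
    obtain ⟨e, he⟩ := hM.face_ne f
    obtain ⟨x, y, -, h⟩ := hM.inc_two e
    exact ⟨SdA_fl x e f ((h x).2 (Or.inl rfl)) he⟩
  · rintro (x | e | f) c h
    · exact sd_star_v hM x c h
    · exact sd_star_e hM e c h
    · exact sd_star_f hM f c h
  · have h1 : Fintype.card M.sdPC.V = Fintype.card (M.V ⊕ M.E ⊕ M.F) :=
      Fintype.card_congr (Equiv.refl _)
    rw [h1, Fintype.card_sum, Fintype.card_sum, sd_card_F hM, sd_card_E hM]
    have := euler_of_sphere M hM hF
    omega

end Pool.Agent.H.MP_c8cc4c_co
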